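import Pool.Agent.Lib.MP_82a8ee_lc.Reach

set_option autoImplicit false

namespace MP82a8ee

/-- The content of one column of a board with two rows: for each of its two cells (0 is the upper
one, 1 the lower one) three bits, telling whether the cell holds a block, whether it holds the
robot, and whether it is the target cell. -/
abbrev Column := Fin 2 → Bool × Bool × Bool

def blk (c : Column) (i : Fin 2) : Bool := (c i).1
def rob (c : Column) (i : Fin 2) : Bool := (c i).2.1
def tgt (c : Column) (i : Fin 2) : Bool := (c i).2.2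

/-- the first column exists and is free in row `r` -/
def headFree : List Column → Fin 2 → Bool
  | [], _ => false
  | c :: _, r => !(blk c r)

/-- acceptance: the robot stands in row `r` just before the columns of the list, `f` marks
additional blocks in the first column, the next move goes to the right -/
def acc : List Column → Fin 2 → (Fin 2 → Bool) → Bool
  | [], _, _ => false
  | c :: z, r, f =>
    if !(blk c r) && !(f r) then
      tgt c r || ((!(blk c r.rev) && !(f r.rev)) && tgt c r.rev) || acc z r (fun _ => false) ||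
        ((!(blk c r.rev) && !(f r.rev)) && acc z r.rev (fun _ => false))
    else headFree z r && (
      tgt c r || ((!(blk c r.rev) && !(f r.rev)) && tgt c r.rev) || acc z r (fun i => i = r) ||
        ((!(blk c r.rev) && !(f r.rev)) && acc z r.rev (fun i => i = r)))

/-- the target cells in the columns of `z`, the first of them being column `x + 1` -/
def TC (x : ℤ) (z : List Column) : Set (ℤ × ℤ) :=
  {t | ∃ (i : Fin 2) (k : ℕ) (a : Column), z[k]? = some a ∧ t = ((i : ℤ), x + 1 + k) ∧
    tgt a i = true}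

/-- the columns of `C` after column `x` are those of `z`, everything further on is blocked -/
def Desc (C : Set (ℤ × ℤ)) (x : ℤ) (z : List Column) (f : Fin 2 → Bool) : Prop :=
  ∀ (i : Fin 2) (k : ℕ), ((i : ℤ), x + 1 + k) ∈ C ↔
    (∀ a, z[k]? = some a → blk a i = true ∨ (k = 0 ∧ f i = true))

/-- reached by a route that starts with a move to the right and never goes to the left -/
def Reach1 (C : Set (ℤ × ℤ)) (p t : ℤ × ℤ) : Prop :=
  ∃ (l : List Dir) (C' : Set (ℤ × ℤ)), GR (Dir.right :: l) ⟨C, p⟩ ⟨C', t⟩ ∧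
    ∀ d ∈ l, d ≠ Dir.left

theorem rev_cast (r : Fin 2) : ((r.rev : Fin 2) : ℤ) = 1 - (r : ℤ) := by
  fin_cases r <;> rfl

theorem rev_ne (r : Fin 2) : r.rev ≠ r := by
  fin_cases r <;> decide

theorem eq_or_rev (i r : Fin 2) : i = r ∨ i = r.rev := by
  fin_cases i <;> fin_cases r <;> decide

theorem fin_row (r : Fin 2) : ((r : Fin 2) : ℤ) = 0 ∨ ((r : Fin 2) : ℤ) = 1 := by
  fin_cases r <;> simp

theorem fin_cast_inj {i j : Fin 2} (h : ((i : Fin 2) : ℤ) = (j : ℤ)) : i = j := by
  fin_cases i <;> fin_cases j <;> simp_all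

theorem G.col {d : Dir} {s t : Position} (h : G d s t) (hd : d ≠ Dir.left) :
    s.robot.2 ≤ t.robot.2 := by
  rw [G_iff] at h
  rw [h.1]
  cases d <;> simp_all [Dir.vec]

theorem GR.col {l : List Dir} {s t : Position} (h : GR l s t) (hl : ∀ d ∈ l, d ≠ Dir.left) :
    s.robot.2 ≤ t.robot.2 := by
  induction h with
  | nil s => exact le_rfl
  | cons hd _ ih =>
    exact (hd.col (hl _ (by simp))).trans (ih (fun e he => hl e (by simp [he])))

theorem Reach1.col {C : Set (ℤ × ℤ)} {r x : ℤ} {t : ℤ × ℤ} (h : Reach1 C (r, x) t) :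
    x + 1 ≤ t.2 := by
  obtain ⟨l, C', h1, h2⟩ := h
  cases h1 with
  | cons hd hl =>
    have h3 := hl.col h2
    rw [G_iff] at hd
    rw [hd.1] at h3
    simpa [Dir.vec] using h3

def Arr (C : Set (ℤ × ℤ)) (r : Fin 2) (y : ℤ) (t : ℤ × ℤ) : Prop :=
  t = ((r : ℤ), y) ∨ (((r.rev : ℤ), y) ∉ C ∧ t = ((r.rev : ℤ), y)) ∨ Reach1 C ((r : ℤ), y) t ∨
    (((r.rev : ℤ), y) ∉ C ∧ Reach1 C ((r.rev : ℤ), y) t)

theorem arr_of_mono {n : ℕ} {l : List Dir} : ∀ {C C' : Set (ℤ × ℤ)} {r : Fin 2} {y : ℤ}
    {t : ℤ × ℤ}, Ok n ⟨C, ((r : ℤ), y)⟩ → GR l ⟨C, ((r : ℤ), y)⟩ ⟨C', t⟩ →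
    (∀ d ∈ l, d ≠ Dir.left) → Arr C r y t := by
  induction l with
  | nil =>
    intro C C' r y t _ h _
    cases h
    exact Or.inl rfl
  | cons d l ih =>
    intro C C' r y t hok h hl
    have hl' : ∀ e ∈ l, e ≠ Dir.left := fun e he => hl e (by simp [he])
    have hdl : d ≠ Dir.left := hl d (by simp)
    cases d with
    | left => exact absurd rfl hdl
    | right => exact Or.inr (Or.inr (Or.inl ⟨l, C', h, hl'⟩))
    | up =>
      cases h with
      | @cons _ _ _ s1 _ hd hr =>
        obtain ⟨h1, h2⟩ := hd.vertical hok (Or.inl rfl)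
        have h3 : s1.blocks = C := by
          rw [G_iff] at hd
          rcases hd.2 with h | h
          · exact h.2
          · exact absurd h.1 h2
        obtain ⟨B1, p1⟩ := s1
        simp only at h1 h2 h3
        rw [← rev_cast] at h1
        subst h1 h3
        have hok1 := hd.ok hok
        have := ih hok1 hr hl'
        rw [Arr, Fin.rev_rev] at this
        rcases this with h | h | h | h
        · exact Or.inr (Or.inl ⟨h2, h⟩)
        · exact Or.inl h.2
        · exact Or.inr (Or.inr (Or.inr ⟨h2, h⟩))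
        · exact Or.inr (Or.inr (Or.inl h.2))
    | down =>
      cases h with
      | @cons _ _ _ s1 _ hd hr =>
        obtain ⟨h1, h2⟩ := hd.vertical hok (Or.inr rfl)
        have h3 : s1.blocks = C := by
          rw [G_iff] at hd
          rcases hd.2 with h | h
          · exact h.2
          · exact absurd h.1 h2
        obtain ⟨B1, p1⟩ := s1
        simp only at h1 h2 h3
        rw [← rev_cast] at h1
        subst h1 h3
        have hok1 := hd.ok hok
        have := ih hok1 hr hl'
        rw [Arr, Fin.rev_rev] at this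
        rcases this with h | h | h | h
        · exact Or.inr (Or.inl ⟨h2, h⟩)
        · exact Or.inl h.2
        · exact Or.inr (Or.inr (Or.inr ⟨h2, h⟩))
        · exact Or.inr (Or.inr (Or.inl h.2))

theorem mono_of_arr {C : Set (ℤ × ℤ)} {r : Fin 2} {y : ℤ} {t : ℤ × ℤ} (h : Arr C r y t) :
    ∃ (l : List Dir) (C' : Set (ℤ × ℤ)), GR l ⟨C, ((r : ℤ), y)⟩ ⟨C', t⟩ ∧
      ∀ d ∈ l, d ≠ Dir.left := by
  rcases h with h | ⟨h1, h2⟩ | ⟨l, C', h1, h2⟩ | ⟨h0, l, C', h1, h2⟩
  · exact ⟨[], C, by rw [h]; exact GR.nil _, by simp⟩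
  · rw [rev_cast] at h1 h2
    obtain ⟨v, hv, hG⟩ := vert (fin_row r) h1
    refine ⟨[v], C, by rw [h2]; exact GR.single hG, ?_⟩
    intro d hd
    rw [List.mem_singleton] at hd
    subst hd
    rcases hv with rfl | rfl <;> decide
  · refine ⟨_, C', h1, ?_⟩
    intro d hd
    rw [List.mem_cons] at hd
    rcases hd with rfl | hd
    · decide
    · exact h2 d hd
  · rw [rev_cast] at h0 h1
    obtain ⟨v, hv, hG⟩ := vert (fin_row r) h0
    refine ⟨_, C', GR.cons hG h1, ?_⟩
    intro d hd
    rw [List.mem_cons, List.mem_cons] at hd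
    rcases hd with rfl | rfl | hd
    · rcases hv with rfl | rfl <;> decide
    · decide
    · exact h2 d hd

theorem reach1_iff {n : ℕ} {C : Set (ℤ × ℤ)} {r : Fin 2} {x : ℤ} {t : ℤ × ℤ}
    (hok : Ok n ⟨C, ((r : ℤ), x)⟩) : Reach1 C ((r : ℤ), x) t ↔
    ∃ C1, G Dir.right ⟨C, ((r : ℤ), x)⟩ ⟨C1, ((r : ℤ), x + 1)⟩ ∧ Arr C1 r (x + 1) t := by
  constructor
  · rintro ⟨l, C', h1, h2⟩
    cases h1 with
    | @cons _ _ _ s1 _ hd hl =>
      obtain ⟨B1, p1⟩ := s1
      have h3 : p1 = ((r : ℤ), x + 1) := by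
        have := ((G_iff _ _ _).1 hd).1
        simp only at this
        rw [this, vec_right]
      subst h3
      exact ⟨B1, hd, arr_of_mono (hd.ok hok) hl h2⟩
  · rintro ⟨C1, hd, h⟩
    obtain ⟨l, C', h1, h2⟩ := mono_of_arr h
    exact ⟨l, C', GR.cons hd h1, h2⟩

end MP82a8ee
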