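import Pool.Agent.Lib.MP_82a8ee_lc.Acc

set_option autoImplicit false

namespace MP82a8ee

theorem TC_cons {x : ℤ} {c : Column} {z : List Column} {t : ℤ × ℤ} :
    t ∈ TC x (c :: z) ↔ (∃ i : Fin 2, t = ((i : ℤ), x + 1) ∧ tgt c i = true) ∨
      t ∈ TC (x + 1) z := by
  constructor
  · rintro ⟨i, k, a, h1, h2, h3⟩
    cases k with
    | zero =>
      left
      simp only [List.getElem?_cons_zero, Option.some.injEq] at h1
      subst h1
      exact ⟨i, by simpa using h2, h3⟩
    | succ k =>
      right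
      simp only [List.getElem?_cons_succ] at h1
      refine ⟨i, k, a, h1, ?_, h3⟩
      rw [h2]; push_cast; ring_nf
  · rintro (⟨i, h1, h2⟩ | ⟨i, k, a, h1, h2, h3⟩)
    · exact ⟨i, 0, c, by simp, by simpa using h1, h2⟩
    · refine ⟨i, k + 1, a, by simpa using h1, ?_, h3⟩
      rw [h2]; push_cast; ring_nf

theorem Desc.tail {C : Set (ℤ × ℤ)} {x : ℤ} {c : Column} {z : List Column} {f : Fin 2 → Bool}
    (h : Desc C x (c :: z) f) : Desc C (x + 1) z (fun _ => false) := by
  intro i k
  have := h i (k + 1)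
  simp only [List.getElem?_cons_succ] at this
  rw [show x + 1 + 1 + (k : ℤ) = x + 1 + ((k + 1 : ℕ) : ℤ) by push_cast; ring, this]
  simp

theorem Desc.head {C : Set (ℤ × ℤ)} {x : ℤ} {c : Column} {z : List Column} {f : Fin 2 → Bool}
    (h : Desc C x (c :: z) f) (i : Fin 2) :
    ((i : ℤ), x + 1) ∉ C ↔ (!(blk c i) && !(f i)) = true := by
  have := h i 0
  simp only [List.getElem?_cons_zero, Nat.cast_zero, add_zero] at this
  rw [this]
  simp

theorem Desc.headFree {C : Set (ℤ × ℤ)} {x : ℤ} {z : List Column}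
    (h : Desc C x z (fun _ => false)) (i : Fin 2) :
    ((i : ℤ), x + 1) ∉ C ↔ headFree z i = true := by
  have := h i 0
  simp only [Nat.cast_zero, add_zero] at this
  rw [this]
  cases z with
  | nil => simp [MP82a8ee.headFree]
  | cons c z => simp [MP82a8ee.headFree]

/-- the configuration after a push -/
theorem Desc.push {C : Set (ℤ × ℤ)} {x : ℤ} {z : List Column} {r : Fin 2} {y : ℤ} (hy : y ≤ x)
    (h : Desc C x z (fun _ => false)) (h2 : ((r : ℤ), x + 1) ∉ C) :
    Desc (insert ((r : ℤ), x + 1) (C \ {((r : ℤ), y)})) x z (fun i => i = r) := by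
  intro i k
  have hk := h i k
  have e1 : (((i : ℤ), x + 1 + (k : ℤ)) : ℤ × ℤ) ∈ insert ((r : ℤ), x + 1) (C \ {((r : ℤ), y)}) ↔
      ((i = r ∧ k = 0) ∨ ((i : ℤ), x + 1 + (k : ℤ)) ∈ C) := by
    rw [Set.mem_insert_iff, Set.mem_sdiff, Set.mem_singleton_iff]
    constructor
    · rintro (h | ⟨h, _⟩)
      · rw [Prod.ext_iff] at h
        simp only at h
        exact Or.inl ⟨fin_cast_inj h.1, by omega⟩
      · exact Or.inr h
    · rintro (⟨h, h'⟩ | h)
      · left; subst h h'; simp
      · right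
        refine ⟨h, ?_⟩
        intro h
        rw [Prod.ext_iff] at h
        simp only at h
        omega
  rw [e1, hk]
  constructor
  · rintro (⟨rfl, rfl⟩ | h) a ha
    · right; simp
    · rcases h a ha with h | ⟨_, h⟩
      · exact Or.inl h
      · exact absurd h (by simp)
  · intro hh
    by_cases hz : i = r ∧ k = 0
    · exact Or.inl hz
    · right
      intro a ha
      rcases hh a ha with h | ⟨h1, h2⟩
      · exact Or.inl h
      · exact absurd ⟨by simpa using h2, h1⟩ hz

/-- acceptance of the arrival in a column -/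
theorem arr_acc {C : Set (ℤ × ℤ)} {x : ℤ} {c : Column} {z : List Column} {r : Fin 2}
    {fr : Bool} {f : Fin 2 → Bool} (hfr : ((r.rev : ℤ), x + 1) ∉ C ↔ fr = true)
    (ih1 : acc z r f = true ↔ ∃ t ∈ TC (x + 1) z, Reach1 C ((r : ℤ), x + 1) t)
    (ih2 : ((r.rev : ℤ), x + 1) ∉ C →
      (acc z r.rev f = true ↔ ∃ t ∈ TC (x + 1) z, Reach1 C ((r.rev : ℤ), x + 1) t)) :
    (tgt c r || (fr && tgt c r.rev) || acc z r f || (fr && acc z r.rev f)) = true ↔
      ∃ t ∈ TC x (c :: z), Arr C r (x + 1) t := by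
  simp only [Bool.or_eq_true, Bool.and_eq_true]
  constructor
  · rintro (((h | ⟨h1, h2⟩) | h) | ⟨h1, h2⟩)
    · exact ⟨((r : ℤ), x + 1), TC_cons.2 (Or.inl ⟨r, rfl, h⟩), Or.inl rfl⟩
    · exact ⟨((r.rev : ℤ), x + 1), TC_cons.2 (Or.inl ⟨r.rev, rfl, h2⟩),
        Or.inr (Or.inl ⟨hfr.2 h1, rfl⟩)⟩
    · obtain ⟨t, ht, hr⟩ := ih1.1 h
      exact ⟨t, TC_cons.2 (Or.inr ht), Or.inr (Or.inr (Or.inl hr))⟩
    · obtain ⟨t, ht, hr⟩ := (ih2 (hfr.2 h1)).1 h2
      exact ⟨t, TC_cons.2 (Or.inr ht), Or.inr (Or.inr (Or.inr ⟨hfr.2 h1, hr⟩))⟩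
  · rintro ⟨t, ht, hA⟩
    rw [TC_cons] at ht
    rcases hA with h | ⟨h1, h⟩ | h | ⟨h1, h⟩
    · left; left; left
      rcases ht with ⟨i, h1, h2⟩ | ⟨i, k, a, _, h2, _⟩
      · rw [h] at h1
        have := fin_cast_inj (congrArg Prod.fst h1)
        rw [this]; exact h2
      · rw [h, Prod.ext_iff] at h2; simp only at h2; omega
    · left; left; right
      refine ⟨hfr.1 h1, ?_⟩
      rcases ht with ⟨i, h1, h2⟩ | ⟨i, k, a, _, h2, _⟩
      · rw [h] at h1
        have := fin_cast_inj (congrArg Prod.fst h1)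
        rw [this]; exact h2
      · rw [h, Prod.ext_iff] at h2; simp only at h2; omega
    · left; right
      have hc := h.col
      rcases ht with ⟨i, h1, _⟩ | ht
      · rw [h1] at hc; simp only at hc; omega
      · exact ih1.2 ⟨t, ht, h⟩
    · right
      refine ⟨hfr.1 h1, ?_⟩
      have hc := h.col
      rcases ht with ⟨i, h1, _⟩ | ht
      · rw [h1] at hc; simp only at hc; omega
      · exact (ih2 h1).2 ⟨t, ht, h⟩

theorem acc_iff {n : ℕ} : ∀ (z : List Column) (C : Set (ℤ × ℤ)) (x : ℤ) (r : Fin 2)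
    (f : Fin 2 → Bool), Ok n ⟨C, ((r : ℤ), x)⟩ → Desc C x z f →
    (acc z r f = true ↔ ∃ t ∈ TC x z, Reach1 C ((r : ℤ), x) t) := by
  intro z
  induction z with
  | nil =>
    intro C x r f _ _
    simp only [acc]
    constructor
    · intro h; exact absurd h (by simp)
    · rintro ⟨t, ⟨i, k, a, h, _⟩, _⟩; simp at h
  | cons c z ih =>
    intro C x r f hok hD
    have hT := hD.tail
    have hstep : (∃ t ∈ TC x (c :: z), Reach1 C ((r : ℤ), x) t) ↔
        ∃ C1, G Dir.right ⟨C, ((r : ℤ), x)⟩ ⟨C1, ((r : ℤ), x + 1)⟩ ∧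
          ∃ t ∈ TC x (c :: z), Arr C1 r (x + 1) t := by
      constructor
      · rintro ⟨t, ht, h⟩
        obtain ⟨C1, h1, h2⟩ := (reach1_iff hok).1 h
        exact ⟨C1, h1, t, ht, h2⟩
      · rintro ⟨C1, h1, t, ht, h2⟩
        exact ⟨t, ht, (reach1_iff hok).2 ⟨C1, h1, h2⟩⟩
    rw [hstep]
    by_cases hfr : (!(blk c r) && !(f r)) = true
    · -- walk
      have hnot : ((r : ℤ), x + 1) ∉ C := (hD.head r).2 hfr
      have hG : G Dir.right ⟨C, ((r : ℤ), x)⟩ ⟨C, ((r : ℤ), x + 1)⟩ := by
        rw [G_iff]; exact ⟨(vec_right _ _).symm, Or.inl ⟨hnot, rfl⟩⟩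
      have hok1 := hG.ok hok
      have huniq : ∀ C1, G Dir.right ⟨C, ((r : ℤ), x)⟩ ⟨C1, ((r : ℤ), x + 1)⟩ → C1 = C := by
        intro C1 h
        rcases ((G_iff _ _ _).1 h).2 with h | h
        · exact h.2
        · exact absurd h.1 hnot
      have key := arr_acc (c := c) (z := z) (f := fun _ => false) (hD.head r.rev)
        (ih C (x + 1) r (fun _ => false) hok1 hT)
        (fun h => ih C (x + 1) r.rev (fun _ => false) ⟨h, hok1.2⟩ hT)
      simp only [acc, hfr, if_true]
      rw [key]
      constructor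
      · rintro ⟨t, ht, h⟩; exact ⟨C, hG, t, ht, h⟩
      · rintro ⟨C1, h1, t, ht, h⟩
        have := huniq C1 h1
        subst this
        exact ⟨t, ht, h⟩
    · -- push
      have hin : ((r : ℤ), x + 1) ∈ C := by
        by_contra hh; exact hfr ((hD.head r).1 hh)
      have hacc : acc (c :: z) r f = (headFree z r && (
        tgt c r || ((!(blk c r.rev) && !(f r.rev)) && tgt c r.rev) || acc z r (fun i => i = r) ||
        ((!(blk c r.rev) && !(f r.rev)) && acc z r.rev (fun i => i = r)))) := by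
        simp only [acc]
        rw [if_neg hfr]
      rw [hacc, Bool.and_eq_true, ← hT.headFree r]
      constructor
      · rintro ⟨h1, h2⟩
        have hG : G Dir.right ⟨C, ((r : ℤ), x)⟩
            ⟨insert ((r : ℤ), x + 1 + 1) (C \ {((r : ℤ), x + 1)}), ((r : ℤ), x + 1)⟩ := by
          rw [G_iff]
          refine ⟨(vec_right _ _).symm, Or.inr ⟨hin, ?_, ?_⟩⟩
          · show (((r : ℤ), x + 1) : ℤ × ℤ) + Dir.right.vec ∉ C
            rw [vec_right]; exact h1
          · show insert ((r : ℤ), x + 1 + 1) (C \ {((r : ℤ), x + 1)}) =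
              insert ((((r : ℤ), x + 1) : ℤ × ℤ) + Dir.right.vec) (C \ {((r : ℤ), x + 1)})
            rw [vec_right]
        refine ⟨_, hG, ?_⟩
        have hok1 := hG.ok hok
        have hD1 := hT.push (r := r) (y := x + 1) le_rfl h1
        refine (arr_acc (f := fun i => decide (i = r)) ?_ (ih _ (x + 1) r _ hok1 hD1)
          (fun h => ih _ (x + 1) r.rev _ ⟨h, hok1.2⟩ hD1)).1 h2
        rw [← hD.head r.rev]
        rw [Set.mem_insert_iff, Set.mem_sdiff, Set.mem_singleton_iff]
        constructor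
        · intro h h'
          apply h
          right
          refine ⟨h', ?_⟩
          intro he
          exact rev_ne r (fin_cast_inj (congrArg Prod.fst he))
        · rintro h (h' | ⟨h', _⟩)
          · rw [Prod.ext_iff] at h'; simp only at h'; omega
          · exact h h'
      · rintro ⟨C1, hG, hA⟩
        have hG' := (G_iff _ _ _).1 hG
        rcases hG'.2 with h | h
        · exact absurd hin h.1
        · obtain ⟨_, h1, h2⟩ := h
          simp only at h1 h2
          rw [vec_right] at h1 h2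
          subst h2
          have hok1 := hG.ok hok
          have hD1 := hT.push (r := r) (y := x + 1) le_rfl h1
          refine ⟨h1, ?_⟩
          refine (arr_acc (f := fun i => decide (i = r)) ?_ (ih _ (x + 1) r _ hok1 hD1)
            (fun h => ih _ (x + 1) r.rev _ ⟨h, hok1.2⟩ hD1)).2 hA
          rw [← hD.head r.rev]
          rw [Set.mem_insert_iff, Set.mem_sdiff, Set.mem_singleton_iff]
          constructor
          · intro h h'
            apply h
            right
            refine ⟨h', ?_⟩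
            intro he
            exact rev_ne r (fin_cast_inj (congrArg Prod.fst he))
          · rintro h (h' | ⟨h', _⟩)
            · rw [Prod.ext_iff] at h'; simp only at h'; omega
            · exact h h'

end MP82a8ee
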