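import Mathlib

set_option autoImplicit false

namespace MP82a8ee

/-- The four directions of a move. -/
inductive Dir
  | up
  | down
  | left
  | right
  deriving DecidableEq

/-- The displacement (row, column) of a move. -/
def Dir.vec : Dir → ℤ × ℤ
  | .up => (-1, 0)
  | .down => (1, 0)
  | .left => (0, -1)
  | .right => (0, 1)

/-- The cells of the board with `m` rows and `n` columns: pairs (row, column). -/
def board (m n : ℕ) : Set (ℤ × ℤ) :=
  {c | 0 ≤ c.1 ∧ c.1 < m ∧ 0 ≤ c.2 ∧ c.2 < n}

/-- A position: the set of cells that hold a block, and the cell of the robot. -/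
structure Position where
  blocks : Set (ℤ × ℤ)
  robot : ℤ × ℤ

/-- One move of PUSH-1 in direction `d` on the board with `m` rows and `n` columns.  The robot goes
to the adjacent cell, which must lie on the board.  If that cell is empty, the robot simply moves
there; if it holds a block, the cell just beyond must lie on the board and be empty, and the block
shifts to it. -/
inductive Move (m n : ℕ) (d : Dir) : Position → Position → Prop
  | walk (B : Set (ℤ × ℤ)) (p : ℤ × ℤ) (hb : p + d.vec ∈ board m n) (hf : p + d.vec ∉ B) :
      Move m n d ⟨B, p⟩ ⟨B, p + d.vec⟩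
  | push (B : Set (ℤ × ℤ)) (p : ℤ × ℤ) (hb : p + d.vec ∈ board m n) (hB : p + d.vec ∈ B)
      (hb' : p + d.vec + d.vec ∈ board m n) (hf : p + d.vec + d.vec ∉ B) :
      Move m n d ⟨B, p⟩ ⟨insert (p + d.vec + d.vec) (B \ {p + d.vec}), p + d.vec⟩

/-- A route: a list of directions, made one after the other. -/
inductive Route (m n : ℕ) : List Dir → Position → Position → Prop
  | nil (s : Position) : Route m n [] s s
  | cons {d : Dir} {l : List Dir} {s t u : Position} :
      Move m n d s t → Route m n l t u → Route m n (d :: l) s u

/-- The instance (blocks `B`, robot at `p`, target `q`) of PUSH-1 on the board with `m` rows and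
`n` columns is solvable. -/
def Solvable (m n : ℕ) (B : Set (ℤ × ℤ)) (p q : ℤ × ℤ) : Prop :=
  ∃ (l : List Dir) (B' : Set (ℤ × ℤ)), Route m n l ⟨B, p⟩ ⟨B', q⟩

end MP82a8ee
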