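import Pool.Agent.Lib.MP_82a8ee_lc.Grid

set_option autoImplicit false

namespace MP82a8ee

theorem G_iff (d : Dir) (s t : Position) : G d s t ↔ t.robot = s.robot + d.vec ∧
    ((t.robot ∉ s.blocks ∧ t.blocks = s.blocks) ∨
     (t.robot ∈ s.blocks ∧ t.robot + d.vec ∉ s.blocks ∧
        t.blocks = insert (t.robot + d.vec) (s.blocks \ {t.robot}))) := by
  constructor
  · intro h
    cases h with
    | walk B p hf => exact ⟨rfl, Or.inl ⟨hf, rfl⟩⟩
    | push B p hB hf => exact ⟨rfl, Or.inr ⟨hB, hf, rfl⟩⟩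
  · obtain ⟨B, p⟩ := s
    obtain ⟨B', q⟩ := t
    rintro ⟨h1, h2⟩
    simp only at h1 h2
    subst h1
    rcases h2 with ⟨h2, h3⟩ | ⟨h2, h3, h4⟩
    · subst h3; exact G.walk B' p h2
    · subst h4; exact G.push B p h2 h3

/-- `Q` is below `K` on the columns `≥ x` -/
def Dom (x : ℤ) (Q K : Set (ℤ × ℤ)) : Prop := ∀ c ∈ Q, x ≤ c.2 → c ∈ K

theorem Dom.mono {x y : ℤ} {Q K : Set (ℤ × ℤ)} (h : Dom x Q K) (hxy : x ≤ y) : Dom y Q K :=
  fun c hc hy => h c hc (hxy.trans hy)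

theorem Dom.trans {x : ℤ} {Q K L : Set (ℤ × ℤ)} (h : Dom x Q K) (h' : Dom x K L) : Dom x Q L :=
  fun c hc hy => h' c (h c hc hy) hy

/-- shape of the routes: an optional prefix of three moves, then no move to the left -/
def LRl (l : List Dir) : Prop :=
  ∃ pre mono : List Dir, l = pre ++ mono ∧
    (pre = [] ∨ ∃ v : Dir, (v = Dir.up ∨ v = Dir.down) ∧ pre = [Dir.left, v, Dir.right]) ∧
    ∀ d ∈ mono, d ≠ Dir.left

theorem LRl.snoc {l : List Dir} {d : Dir} (h : LRl l) (hd : d ≠ Dir.left) : LRl (l ++ [d]) := by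
  obtain ⟨pre, mono, rfl, h2, h3⟩ := h
  refine ⟨pre, mono ++ [d], by simp, h2, ?_⟩
  intro e he
  rw [List.mem_append] at he
  rcases he with he | he
  · exact h3 e he
  · rw [List.mem_singleton] at he; subst he; exact hd

/-- a good route from `s0` to cell `p`, ending with blocks `Q`, of length at most `k / 2` -/
def GoodK (s0 : Position) (p : ℤ × ℤ) (Q : Set (ℤ × ℤ)) (k : ℤ) : Prop :=
  ∃ l : List Dir, GR l s0 ⟨Q, p⟩ ∧ LRl l ∧ 2 * (l.length : ℤ) ≤ k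

theorem GoodK.mono {s0 : Position} {p : ℤ × ℤ} {Q : Set (ℤ × ℤ)} {k k' : ℤ}
    (h : GoodK s0 p Q k) (hk : k ≤ k') : GoodK s0 p Q k' := by
  obtain ⟨l, h1, h2, h3⟩ := h
  exact ⟨l, h1, h2, h3.trans hk⟩

theorem GoodK.snoc {s0 : Position} {p q : ℤ × ℤ} {Q Q' : Set (ℤ × ℤ)} {k : ℤ} {d : Dir}
    (h : GoodK s0 p Q k) (hd : G d ⟨Q, p⟩ ⟨Q', q⟩) (hne : d ≠ Dir.left) :
    GoodK s0 q Q' (k + 2) := by
  obtain ⟨l, h1, h2, h3⟩ := h
  refine ⟨l ++ [d], h1.snoc hd, h2.snoc hne, ?_⟩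
  simp only [List.length_append, List.length_singleton]
  push_cast
  linarith

/-- the vertical move from row `r` (0 or 1) to the other row -/
theorem vert {Q : Set (ℤ × ℤ)} {r x : ℤ} (hr : r = 0 ∨ r = 1) (h : (1 - r, x) ∉ Q) :
    ∃ v : Dir, (v = Dir.up ∨ v = Dir.down) ∧ G v ⟨Q, (r, x)⟩ ⟨Q, (1 - r, x)⟩ := by
  rcases hr with rfl | rfl
  · refine ⟨Dir.down, Or.inr rfl, ?_⟩
    rw [G_iff]
    refine ⟨?_, Or.inl ⟨h, rfl⟩⟩
    ext <;> simp [Dir.vec]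
  · refine ⟨Dir.up, Or.inl rfl, ?_⟩
    rw [G_iff]
    refine ⟨?_, Or.inl ⟨h, rfl⟩⟩
    ext <;> simp [Dir.vec]

theorem GoodK.vert {s0 : Position} {r x : ℤ} {Q : Set (ℤ × ℤ)} {k : ℤ}
    (h : GoodK s0 (r, x) Q k) (hr : r = 0 ∨ r = 1) (hf : (1 - r, x) ∉ Q) :
    GoodK s0 (1 - r, x) Q (k + 2) := by
  obtain ⟨v, hv, hG⟩ := MP82a8ee.vert hr hf
  refine h.snoc hG ?_
  rintro rfl
  rcases hv with hv | hv <;> exact absurd hv (by decide)

theorem vec_right (r x : ℤ) : ((r, x) : ℤ × ℤ) + Dir.right.vec = (r, x + 1) := by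
  ext <;> simp [Dir.vec]

theorem vec_left (r x : ℤ) : ((r, x) : ℤ × ℤ) + Dir.left.vec = (r, x - 1) := by
  ext <;> simp [Dir.vec]; ring

/-- a step to the right can be repeated from a configuration with fewer blocks ahead -/
theorem ext_right {Q K : Set (ℤ × ℤ)} {r x : ℤ} (hD : Dom (x + 1) Q K)
    (h : (r, x + 1) ∉ K ∨ (r, x + 2) ∉ K) :
    ∃ Q', G Dir.right ⟨Q, (r, x)⟩ ⟨Q', (r, x + 1)⟩ ∧ (r, x + 1) ∉ Q' ∧
      (∀ c ∈ Q', x + 1 ≤ c.2 → c ∈ K ∨ ((r, x + 1) ∈ K ∧ c = (r, x + 2))) ∧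
      (∀ c ∈ Q', x + 1 ≤ c.2 → c ≠ (r, x + 1)) := by
  by_cases hq : (r, x + 1) ∈ Q
  · have hk : (r, x + 1) ∈ K := hD _ hq (by simp)
    have hk2 : (r, x + 2) ∉ K := by
      rcases h with h | h
      · exact absurd hk h
      · exact h
    have hq2 : (r, x + 2) ∉ Q := fun hc => hk2 (hD _ hc (by simp))
    refine ⟨insert (r, x + 2) (Q \ {(r, x + 1)}), ?_, ?_, ?_, ?_⟩
    · rw [G_iff]
      refine ⟨(vec_right r x).symm, Or.inr ⟨hq, ?_, ?_⟩⟩
      · show ((r, x + 1) : ℤ × ℤ) + Dir.right.vec ∉ Q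
        rw [vec_right, add_assoc]; exact hq2
      · show insert (r, x + 2) (Q \ {(r, x + 1)}) =
          insert (((r, x + 1) : ℤ × ℤ) + Dir.right.vec) (Q \ {(r, x + 1)})
        rw [vec_right, add_assoc]; norm_num
    · intro hc
      rcases hc with hc | hc
      · rw [Prod.ext_iff] at hc; simp at hc
      · exact hc.2 rfl
    · intro c hc hcx
      rcases hc with hc | hc
      · exact Or.inr ⟨hk, hc⟩
      · exact Or.inl (hD c hc.1 hcx)
    · intro c hc _ he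
      subst he
      rcases hc with hc | hc
      · rw [Prod.ext_iff] at hc; simp at hc
      · exact hc.2 rfl
  · refine ⟨Q, ?_, hq, fun c hc hcx => Or.inl (hD c hc hcx), ?_⟩
    · rw [G_iff]
      exact ⟨(vec_right r x).symm, Or.inl ⟨hq, rfl⟩⟩
    · intro c hc _ he
      subst he; exact hq hc

end MP82a8ee
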