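import Pool.Agent.Lib.MP_82a8ee_lc.Defs

set_option autoImplicit false

namespace MP82a8ee

/-- A move on the unbounded grid. -/
inductive G (d : Dir) : Position → Position → Prop
  | walk (B : Set (ℤ × ℤ)) (p : ℤ × ℤ) (hf : p + d.vec ∉ B) : G d ⟨B, p⟩ ⟨B, p + d.vec⟩
  | push (B : Set (ℤ × ℤ)) (p : ℤ × ℤ) (hB : p + d.vec ∈ B) (hf : p + d.vec + d.vec ∉ B) :
      G d ⟨B, p⟩ ⟨insert (p + d.vec + d.vec) (B \ {p + d.vec}), p + d.vec⟩

/-- A route on the unbounded grid. -/
inductive GR : List Dir → Position → Position → Prop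
  | nil (s : Position) : GR [] s s
  | cons {d : Dir} {l : List Dir} {s t u : Position} : G d s t → GR l t u → GR (d :: l) s u

theorem GR.append {l l' : List Dir} {s t u : Position} (h : GR l s t) (h' : GR l' t u) :
    GR (l ++ l') s u := by
  induction h with
  | nil s => simpa using h'
  | cons hd _ ih => exact GR.cons hd (ih h')

theorem GR.single {d : Dir} {s t : Position} (h : G d s t) : GR [d] s t :=
  GR.cons h (GR.nil t)

theorem GR.snoc {l : List Dir} {d : Dir} {s t u : Position} (h : GR l s t) (h' : G d t u) :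
    GR (l ++ [d]) s u := h.append (GR.single h')

/-- the robot is not on a block and everything outside the board is blocked -/
def Ok (n : ℕ) (s : Position) : Prop := s.robot ∉ s.blocks ∧ ∀ c, c ∉ board 2 n → c ∈ s.blocks

theorem Dir.vec_ne (d : Dir) : d.vec ≠ 0 := by cases d <;> simp [Dir.vec]

theorem G.ok {n : ℕ} {d : Dir} {s t : Position} (h : G d s t) (hs : Ok n s) : Ok n t := by
  obtain ⟨h1, h2⟩ := hs
  cases h with
  | walk B p hf => exact ⟨hf, h2⟩
  | push B p hB hf =>
    refine ⟨?_, ?_⟩
    · show p + d.vec ∉ insert (p + d.vec + d.vec) (B \ {p + d.vec})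
      intro hc
      rcases hc with hc | hc
      · exact d.vec_ne (by simpa using hc)
      · exact hc.2 rfl
    · intro c hc
      show c ∈ insert (p + d.vec + d.vec) (B \ {p + d.vec})
      by_cases hcp : c = p + d.vec
      · exfalso
        subst hcp
        apply hf
        apply h2
        have hp : p ∈ board 2 n := by
          by_contra hp
          exact h1 (h2 p hp)
        intro hq
        apply hc
        simp only [board, Set.mem_ofPred_eq, Prod.fst_add, Prod.snd_add] at hp hq ⊢
        cases d <;> simp [Dir.vec] at hp hq ⊢ <;> omega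
      · exact Or.inr ⟨h2 c hc, hcp⟩

theorem GR.ok {n : ℕ} {l : List Dir} {s t : Position} (h : GR l s t) (hs : Ok n s) : Ok n t := by
  induction h with
  | nil s => exact hs
  | cons hd _ ih => exact ih (hd.ok hs)

/-- a horizontally adjacent pair of blocks stays for ever -/
theorem G.pair {n : ℕ} {d : Dir} {s t : Position} (h : G d s t) (hs : Ok n s) {r y : ℤ}
    (ha : (r, y) ∈ s.blocks) (hb : (r, y + 1) ∈ s.blocks) :
    (r, y) ∈ t.blocks ∧ (r, y + 1) ∈ t.blocks := by
  obtain ⟨h1, h2⟩ := hs
  cases h with
  | walk B p hf => exact ⟨ha, hb⟩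
  | push B p hB hf =>
    have hp : p ∈ board 2 n := by
      by_contra hp
      exact h1 (h2 p hp)
    have hq : p + d.vec + d.vec ∈ board 2 n := by
      by_contra hq
      exact hf (h2 _ hq)
    have key : ∀ c : ℤ × ℤ, c ∈ B → c ≠ p + d.vec →
        c ∈ insert (p + d.vec + d.vec) (B \ {p + d.vec}) := fun c hc hne => Or.inr ⟨hc, hne⟩
    obtain ⟨a, b⟩ := p
    simp only [board, Set.mem_ofPred_eq, Prod.fst_add, Prod.snd_add] at hp hq
    refine ⟨key _ ha ?_, key _ hb ?_⟩
    · intro he
      rw [Prod.ext_iff] at he
      simp only [Prod.fst_add, Prod.snd_add] at he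
      cases d <;> simp only [Dir.vec] at he hp hq hf
      · push_cast at *; omega
      · push_cast at *; omega
      · -- left : the robot stands on (r, y + 1)
        apply h1
        have : ((a, b) : ℤ × ℤ) = (r, y + 1) := by
          ext <;> simp <;> omega
        show ((a, b) : ℤ × ℤ) ∈ B
        rw [this]; exact hb
      · -- right : the cell beyond is (r, y + 1)
        apply hf
        have : ((a, b) : ℤ × ℤ) + (0, 1) + (0, 1) = (r, y + 1) := by
          ext <;> simp <;> omega
        rw [this]; exact hb
    · intro he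
      rw [Prod.ext_iff] at he
      simp only [Prod.fst_add, Prod.snd_add] at he
      cases d <;> simp only [Dir.vec] at he hp hq hf
      · push_cast at *; omega
      · push_cast at *; omega
      · apply hf
        have : ((a, b) : ℤ × ℤ) + (0, -1) + (0, -1) = (r, y) := by
          ext <;> simp <;> omega
        rw [this]; exact ha
      · apply h1
        have : ((a, b) : ℤ × ℤ) = (r, y) := by
          ext <;> simp <;> omega
        show ((a, b) : ℤ × ℤ) ∈ B
        rw [this]; exact ha

theorem GR.pair {n : ℕ} {l : List Dir} {s t : Position} (h : GR l s t) (hs : Ok n s) {r y : ℤ}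
    (ha : (r, y) ∈ s.blocks) (hb : (r, y + 1) ∈ s.blocks) :
    (r, y) ∈ t.blocks ∧ (r, y + 1) ∈ t.blocks := by
  induction h with
  | nil s => exact ⟨ha, hb⟩
  | cons hd _ ih =>
    obtain ⟨ha', hb'⟩ := hd.pair hs ha hb
    exact ih (hd.ok hs) ha' hb'

end MP82a8ee
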