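import Pool.Agent.Lib.MP_82a8ee_lc.Front

set_option autoImplicit false

namespace MP82a8ee

/-- a good route to `p` with the standard bound on its length -/
def Good (s0 : Position) (p : ℤ × ℤ) (Q : Set (ℤ × ℤ)) : Prop := GoodK s0 p Q (3 * p.2 + 3)

/-- a good route to `p` with the better bound on its length -/
def GoodN (s0 : Position) (p : ℤ × ℤ) (Q : Set (ℤ × ℤ)) : Prop := GoodK s0 p Q (3 * p.2 + 2)

theorem Ok.mem {n : ℕ} {s : Position} (h : Ok n s) : s.robot ∈ board 2 n := by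
  by_contra hp
  exact h.1 (h.2 _ hp)

theorem Ok.row {n : ℕ} {s : Position} (h : Ok n s) : s.robot.1 = 0 ∨ s.robot.1 = 1 := by
  have := h.mem
  simp only [board, Set.mem_ofPred_eq] at this
  push_cast at this
  omega

theorem Ok.free {n : ℕ} {s : Position} (h : Ok n s) {c : ℤ × ℤ} (hc : c ∉ s.blocks) :
    0 ≤ c.1 ∧ c.1 ≤ 1 ∧ 0 ≤ c.2 ∧ c.2 < n := by
  have : c ∈ board 2 n := by
    by_contra hp
    exact hc (h.2 _ hp)
  simp only [board, Set.mem_ofPred_eq] at this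
  push_cast at this
  omega

theorem G.keep {d : Dir} {s t : Position} (h : G d s t) {c : ℤ × ℤ} (hc : c ∈ s.blocks)
    (hne : c ≠ t.robot) : c ∈ t.blocks := by
  rw [G_iff] at h
  rcases h.2 with ⟨_, h3⟩ | ⟨_, _, h4⟩
  · rw [h3]; exact hc
  · rw [h4]; exact Or.inr ⟨hc, hne⟩

theorem G.dom {d : Dir} {s t : Position} (h : G d s t) {X : ℤ} (hX : t.robot.2 ≤ X) :
    Dom (X + 1) s.blocks t.blocks := by
  intro c hc hcx
  refine h.keep hc ?_
  rintro rfl
  omega

/-- a vertical move is a walk to the other row -/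
theorem G.vertical {n : ℕ} {d : Dir} {s t : Position} (h : G d s t) (hs : Ok n s)
    (hd : d = Dir.up ∨ d = Dir.down) : t.robot = (1 - s.robot.1, s.robot.2) ∧
    t.robot ∉ s.blocks := by
  have hr := hs.row
  have hm := (h.ok hs).mem
  rw [G_iff] at h
  obtain ⟨h1, h2⟩ := h
  simp only [board, Set.mem_ofPred_eq] at hm
  push_cast at hm
  have e1 : t.robot.1 = s.robot.1 + d.vec.1 := by rw [h1]; rfl
  have e2 : t.robot.2 = s.robot.2 + d.vec.2 := by rw [h1]; rfl
  constructor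
  · rcases hd with rfl | rfl <;> simp only [Dir.vec] at e1 e2 <;> ext <;> simp only [] <;> omega
  · rcases h2 with ⟨h2, _⟩ | ⟨_, h3, _⟩
    · exact h2
    · exfalso
      have h5 := hs.free h3
      simp only [Prod.fst_add, Prod.snd_add] at h5
      rcases hd with rfl | rfl <;> simp only [Dir.vec] at e1 e2 h5 <;> omega

/-- how a block of the frontier column can disappear -/
theorem removed {n : ℕ} {d : Dir} {s t : Position} {X σ : ℤ} (h : G d s t) (hs : Ok n s)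
    (hX : s.robot.2 ≤ X) (ha : (σ, X) ∈ s.blocks) (hb : (σ, X) ∉ t.blocks) :
    s.robot = (σ, X - 1) ∧ (σ, X + 1) ∉ s.blocks ∧
      t.blocks = insert (σ, X + 1) (s.blocks \ {(σ, X)}) ∧ t.robot = (σ, X) := by
  have hk : t.robot = (σ, X) := by
    by_contra hne
    exact hb (h.keep ha (fun e => hne e.symm))
  by_cases hd : d = Dir.up ∨ d = Dir.down
  · exact absurd ha (hk ▸ (h.vertical hs hd).2)
  · rw [G_iff] at h
    obtain ⟨h1, h2⟩ := h
    have e1 : t.robot.1 = s.robot.1 + d.vec.1 := by rw [h1]; rfl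
    have e2 : t.robot.2 = s.robot.2 + d.vec.2 := by rw [h1]; rfl
    rw [hk] at e1 e2
    rcases h2 with ⟨h2, h3⟩ | ⟨_, h3, h4⟩
    · exact absurd ha (hk ▸ h2)
    · cases d with
      | up => exact absurd (Or.inl rfl) hd
      | down => exact absurd (Or.inr rfl) hd
      | left => simp only [Dir.vec] at e1 e2; omega
      | right =>
        simp only [Dir.vec] at e1 e2
        rw [hk, vec_right] at h3 h4
        refine ⟨?_, h3, h4, hk⟩
        ext <;> simp <;> omega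

/-- crossing the frontier column -/
theorem cross {d : Dir} {s t : Position} {X : ℤ} (h : G d s t)
    (hX : s.robot.2 ≤ X) (hX' : X < t.robot.2) :
    s.robot.2 = X ∧ t.robot = (s.robot.1, X + 1) ∧
      (((s.robot.1, X + 1) ∉ s.blocks ∧ t.blocks = s.blocks) ∨
       ((s.robot.1, X + 1) ∈ s.blocks ∧ (s.robot.1, X + 2) ∉ s.blocks ∧
         t.blocks = insert (s.robot.1, X + 2) (s.blocks \ {(s.robot.1, X + 1)}))) := by
  rw [G_iff] at h
  obtain ⟨h1, h2⟩ := h
  have e1 : t.robot.1 = s.robot.1 + d.vec.1 := by rw [h1]; rfl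
  have e2 : t.robot.2 = s.robot.2 + d.vec.2 := by rw [h1]; rfl
  cases d with
  | up => simp only [Dir.vec] at e1 e2; omega
  | down => simp only [Dir.vec] at e1 e2; omega
  | left => simp only [Dir.vec] at e1 e2; omega
  | right =>
    simp only [Dir.vec] at e1 e2
    have e3 : s.robot.2 = X := by omega
    have e4 : t.robot = (s.robot.1, X + 1) := by
      ext <;> simp <;> omega
    refine ⟨e3, e4, ?_⟩
    rw [e4, vec_right, add_assoc] at h2
    norm_num at h2
    exact h2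

/-- a cell that is blocked for ever -/
def Froz (c : ℤ × ℤ) (K : Set (ℤ × ℤ)) : Prop :=
  c ∈ K ∧ ((c.1, c.2 - 1) ∈ K ∨ (c.1, c.2 + 1) ∈ K)

theorem Froz.step {n : ℕ} {d : Dir} {s t : Position} {c : ℤ × ℤ} (h : Froz c s.blocks)
    (hs : Ok n s) (hG : G d s t) : Froz c t.blocks := by
  obtain ⟨a, b⟩ := c
  obtain ⟨h1, h2 | h2⟩ := h
  · simp only at h2
    have := hG.pair hs (r := a) (y := b - 1) h2 (by simpa using h1)
    exact ⟨by simpa using this.2, Or.inl this.1⟩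
  · have := hG.pair hs (r := a) (y := b) h1 h2
    exact ⟨this.1, Or.inr this.2⟩

/-- the cell `(σ, X)` of the frontier column `X` is reached by a good route whose configuration is
below `K` further on -/
def Front (s0 : Position) (K : Set (ℤ × ℤ)) (X σ : ℤ) : Prop :=
  ∃ Q, Good s0 (σ, X) Q ∧ Dom (X + 1) Q K

theorem Front.trans {s0 : Position} {K L : Set (ℤ × ℤ)} {X σ : ℤ} (h : Front s0 K X σ)
    (h' : Dom (X + 1) K L) : Front s0 L X σ := by
  obtain ⟨Q, h1, h2⟩ := h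
  exact ⟨Q, h1, h2.trans h'⟩

/-- the same with the better bound on the length of the route -/
def FrontN (s0 : Position) (K : Set (ℤ × ℤ)) (X σ : ℤ) : Prop :=
  ∃ Q, GoodN s0 (σ, X) Q ∧ Dom (X + 1) Q K

theorem FrontN.trans {s0 : Position} {K L : Set (ℤ × ℤ)} {X σ : ℤ} (h : FrontN s0 K X σ)
    (h' : Dom (X + 1) K L) : FrontN s0 L X σ := by
  obtain ⟨Q, h1, h2⟩ := h
  exact ⟨Q, h1, h2.trans h'⟩

theorem FrontN.front {s0 : Position} {K : Set (ℤ × ℤ)} {X σ : ℤ} (h : FrontN s0 K X σ) :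
    Front s0 K X σ := by
  obtain ⟨Q, h1, h2⟩ := h
  refine ⟨Q, GoodK.mono h1 ?_, h2⟩
  show 3 * X + 2 ≤ 3 * X + 3
  linarith

/-- what is known about a reached cell of the frontier column -/
def FR (s0 : Position) (K : Set (ℤ × ℤ)) (X σ : ℤ) : Prop :=
  FrontN s0 K X σ ∨ (Front s0 K X σ ∧ FrontN s0 K X (1 - σ))

theorem FR.trans {s0 : Position} {K L : Set (ℤ × ℤ)} {X σ : ℤ} (h : FR s0 K X σ)
    (h' : Dom (X + 1) K L) : FR s0 L X σ := by
  rcases h with h | ⟨h1, h2⟩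
  · exact Or.inl (h.trans h')
  · exact Or.inr ⟨h1.trans h', h2.trans h'⟩

theorem FR.front {s0 : Position} {K : Set (ℤ × ℤ)} {X σ : ℤ} (h : FR s0 K X σ) :
    Front s0 K X σ := by
  rcases h with h | ⟨h1, _⟩
  · exact h.front
  · exact h1

def SnapPart (n : ℕ) (s0 s : Position) (X : ℤ) : Prop :=
  ∃ (u : Position) (l : List Dir), GR l u s ∧ Ok n u ∧ Dom (X + 1) u.blocks s.blocks ∧
    (∀ σ, (σ = 0 ∨ σ = 1) → Front s0 u.blocks (X - 1) σ ∨ (σ, X - 1) ∈ u.blocks) ∧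
    (∀ σ, (σ = 0 ∨ σ = 1) → FR s0 s.blocks X σ ∨ ((σ, X) ∈ s.blocks ∧ (σ, X) ∈ u.blocks))

def BasePart (s0 s : Position) : Prop :=
  Dom (s0.robot.2 + 1) s0.blocks s.blocks ∧ (∃ l, GR l s0 s) ∧
    (∀ σ, (σ = 0 ∨ σ = 1) → FR s0 s.blocks s0.robot.2 σ ∨
      ((σ, s0.robot.2) ∈ s.blocks ∧ (σ, s0.robot.2) ∈ s0.blocks ∧
        ((∃ t, G Dir.left s0 t) ∨ s = s0)))

def Inv (n : ℕ) (s0 s : Position) (X : ℤ) : Prop :=
  s0.robot.2 ≤ X ∧ s.robot.2 ≤ X ∧ Ok n s ∧
    (∀ x, s0.robot.2 < x → x < X → ∀ σ, (σ = 0 ∨ σ = 1) →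
      (∃ Q, Good s0 (σ, x) Q) ∨ Froz (σ, x) s.blocks) ∧
    ((X = s0.robot.2 ∧ BasePart s0 s) ∨ (s0.robot.2 < X ∧ SnapPart n s0 s X))

/-- the key step: a block of the column after the snapshot column can be pushed by a good route -/
theorem push_snap {n : ℕ} {s0 u s : Position} {l : List Dir} {X σ : ℤ} (hr : GR l u s)
    (hu : Ok n u) (hprev : Front s0 u.blocks (X - 1) σ ∨ (σ, X - 1) ∈ u.blocks)
    (hb : (σ, X) ∈ u.blocks) : Froz (σ, X) s.blocks ∨
      ((σ, X - 1) ∉ u.blocks ∧ (σ, X + 1) ∉ u.blocks ∧ ∃ Q', GoodN s0 (σ, X) Q' ∧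
        ∀ c ∈ Q', X ≤ c.2 → c ∈ u.blocks ∨ c = (σ, X + 1)) := by
  by_cases e1 : (σ, X - 1) ∈ u.blocks
  · left
    have := hr.pair hu (r := σ) (y := X - 1) e1 (by simpa using hb)
    exact ⟨by simpa using this.2, Or.inl this.1⟩
  by_cases e2 : (σ, X + 1) ∈ u.blocks
  · left
    have := hr.pair hu (r := σ) (y := X) hb e2
    exact ⟨this.1, Or.inr this.2⟩
  right
  refine ⟨e1, e2, ?_⟩
  rcases hprev with ⟨Q, hQ, hD⟩ | h
  · obtain ⟨Q', hG, _, h3, _⟩ := ext_right (Q := Q) (K := u.blocks) (r := σ) (x := X - 1) hD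
      (Or.inr (by rw [show X - 1 + 2 = X + 1 by ring]; exact e2))
    rw [show X - 1 + 1 = X by ring] at hG h3
    rw [show X - 1 + 2 = X + 1 by ring] at h3
    refine ⟨Q', ?_, ?_⟩
    · refine (GoodK.snoc hQ hG (by decide)).mono ?_
      show 3 * (X - 1) + 3 + 2 ≤ 3 * X + 2
      linarith
    · intro c hc hcx
      rcases h3 c hc hcx with h | h
      · exact Or.inl h
      · exact Or.inr h.2
  · exact absurd h e1

end MP82a8ee
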