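import Pool.Agent.Lib.MP_82a8ee_lc.Step

set_option autoImplicit false

namespace MP82a8ee

theorem inv_cross {n : ℕ} {s0 s t : Position} {d : Dir} {X : ℤ}
    (hI : Inv n s0 s X) (hG : G d s t) (hX : X < t.robot.2) : Inv n s0 t (X + 1) := by
  obtain ⟨hc, hsX, hs, hfin, hpart⟩ := hI
  have ht := hG.ok hs
  obtain ⟨k1, k2, k3⟩ := cross hG hsX hX
  have hsr : s.robot = (s.robot.1, X) := by ext <;> simp [k1]
  have htX : t.robot.2 = X + 1 := by rw [k2]
  have hdom : Dom (X + 1 + 1) s.blocks t.blocks := hG.dom (le_of_eq htX)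
  have hrow := hs.row
  -- both rows of the old frontier
  have hfr : ∀ σ, (σ = 0 ∨ σ = 1) → FR s0 s.blocks X σ ∨ (σ, X) ∈ s.blocks := by
    intro σ hσ
    rcases hpart with ⟨hXc, _, _, hfr⟩ | ⟨_, u, l, _, _, _, _, hfr⟩
    · subst hXc
      rcases hfr σ hσ with h | h
      · exact Or.inl h
      · exact Or.inr h.1
    · rcases hfr σ hσ with h | h
      · exact Or.inl h
      · exact Or.inr h.1
  -- the row of the robot
  have hρ : FR s0 s.blocks X s.robot.1 := by
    rcases hfr s.robot.1 hrow with h | h
    · exact h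
    · exact absurd (hsr ▸ h) hs.1
  obtain ⟨Q, hQ, hQD⟩ := hρ.front
  obtain ⟨Q', hG', q1, q2, _⟩ := ext_right (Q := Q) (K := s.blocks) (r := s.robot.1) (x := X) hQD
    (by rcases k3 with h | h
        · exact Or.inl h.1
        · exact Or.inr h.2.1)
  have hg1 : GoodN s0 (s.robot.1, X + 1) Q' := by
    refine (GoodK.snoc hQ hG' (by decide)).mono ?_
    show 3 * X + 3 + 2 ≤ 3 * (X + 1) + 2
    linarith
  have hd1 : Dom (X + 1 + 1) Q' t.blocks := by
    intro c hc hcx
    rcases q2 c hc (by linarith) with h | ⟨h, h'⟩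
    · exact hdom c h hcx
    · rcases k3 with k3 | k3
      · exact absurd h k3.1
      · rw [k3.2.2, h']; exact Or.inl rfl
  refine ⟨by linarith, by linarith, ht, ?_, Or.inr ⟨by linarith, ?_⟩⟩
  · intro x hx1 hx2 σ hσ
    by_cases hxX : x < X
    · rcases hfin x hx1 hxX σ hσ with h | h
      · exact Or.inl h
      · exact Or.inr (h.step hs hG)
    · have : x = X := by linarith [Int.lt_add_one_iff.1 hx2]
      subst this
      rcases hpart with ⟨hXc, _⟩ | ⟨_, u, l, hl, hu, hDu, hprev, hfr'⟩
      · exact absurd hx1 (by linarith)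
      · rcases hfr' σ hσ with h | ⟨ha, hb⟩
        · obtain ⟨Q1, hQ1, _⟩ := h.front
          exact Or.inl ⟨Q1, hQ1⟩
        · rcases push_snap hl hu (hprev σ hσ) hb with h | ⟨_, _, Q1, hQ1, _⟩
          · exact Or.inr (h.step hs hG)
          · refine Or.inl ⟨Q1, GoodK.mono hQ1 ?_⟩
            show 3 * x + 2 ≤ 3 * x + 3
            linarith
  · refine ⟨s, [d], GR.single hG, hs, hdom, ?_, ?_⟩
    · intro σ hσ
      rw [show X + 1 - 1 = X by ring]
      rcases hfr σ hσ with h | h
      · exact Or.inl h.front
      · exact Or.inr h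
    · intro σ hσ
      by_cases hσ' : σ = s.robot.1
      · left
        subst hσ'
        exact Or.inl ⟨Q', hg1, hd1⟩
      · have hσ2 : σ = 1 - s.robot.1 := by omega
        by_cases hb : (σ, X + 1) ∈ s.blocks
        · right
          refine ⟨hG.keep hb ?_, hb⟩
          rw [k2]
          intro h
          exact hσ' (congrArg Prod.fst h)
        · left
          have hfar : ∀ (Q1 : Set (ℤ × ℤ)), (∀ c ∈ Q1, X + 1 ≤ c.2 → c ∈ s.blocks) →
              Dom (X + 1 + 1) Q1 t.blocks := by
            intro Q1 h1 c hc hcx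
            exact hdom c (h1 c hc (by linarith)) hcx
          by_cases hst : Front s0 s.blocks X σ
          · -- step to the right from the other row
            left
            obtain ⟨Q1, hQ1, hD1⟩ := hst
            obtain ⟨Q2, hG2, _, r2, _⟩ := ext_right (Q := Q1) (K := s.blocks) (r := σ) (x := X) hD1
              (Or.inl hb)
            refine ⟨Q2, ?_, hfar Q2 ?_⟩
            · refine (GoodK.snoc hQ1 hG2 (by decide)).mono ?_
              show 3 * X + 3 + 2 ≤ 3 * (X + 1) + 2
              linarith
            · intro c hc hcx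
              rcases r2 c hc hcx with h | ⟨h, _⟩
              · exact h
              · exact absurd h hb
          · -- the row of the robot has the better bound
            right
            obtain ⟨Q1, hQ1, hD1⟩ : FrontN s0 s.blocks X s.robot.1 := by
              rcases hρ with h | ⟨_, h⟩
              · exact h
              · rw [← hσ2] at h
                exact absurd h.front hst
            obtain ⟨Q2, hG2, r1, r2, _⟩ := ext_right (Q := Q1) (K := s.blocks)
              (r := s.robot.1) (x := X) hD1
              (by rcases k3 with h | h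
                  · exact Or.inl h.1
                  · exact Or.inr h.2.1)
            have hg2 : GoodK s0 (s.robot.1, X + 1) Q2 (3 * X + 4) := by
              refine (GoodK.snoc hQ1 hG2 (by decide)).mono ?_
              show 3 * X + 2 + 2 ≤ 3 * X + 4
              linarith
            have hd2 : Dom (X + 1 + 1) Q2 t.blocks := by
              intro c hc hcx
              rcases r2 c hc (by linarith) with h | ⟨h, h'⟩
              · exact hdom c h hcx
              · rcases k3 with k3 | k3
                · exact absurd h k3.1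
                · rw [k3.2.2, h']; exact Or.inl rfl
            have hq : (1 - s.robot.1, X + 1) ∉ Q2 := by
              rw [← hσ2]
              intro h
              rcases r2 _ h (by simp) with h | ⟨_, h⟩
              · exact hb h
              · exact hσ' (congrArg Prod.fst h)
            refine ⟨⟨Q2, ?_, hd2⟩, ⟨Q2, ?_, hd2⟩⟩
            · rw [hσ2]
              refine (GoodK.vert hg2 hrow hq).mono ?_
              show 3 * X + 4 + 2 ≤ 3 * (X + 1) + 3
              linarith
            · rw [hσ2, show 1 - (1 - s.robot.1) = s.robot.1 by ring]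
              refine hg2.mono ?_
              show 3 * X + 4 ≤ 3 * (X + 1) + 2
              linarith

theorem inv_step {n : ℕ} {s0 s t : Position} {d : Dir} {X : ℤ} (h0 : Ok n s0)
    (hI : Inv n s0 s X) (hG : G d s t) : ∃ X', Inv n s0 t X' := by
  by_cases hX : t.robot.2 ≤ X
  · exact ⟨X, inv_stay h0 hI hG hX⟩
  · exact ⟨X + 1, inv_cross hI hG (not_le.1 hX)⟩

theorem inv_route {n : ℕ} {s0 s t : Position} {l : List Dir} (h0 : Ok n s0) (h : GR l s t) :
    ∀ {X : ℤ}, Inv n s0 s X → ∃ X', Inv n s0 t X' := by
  induction h with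
  | nil s => intro X hX; exact ⟨X, hX⟩
  | cons hd _ ih =>
    intro X hX
    obtain ⟨X', hX'⟩ := inv_step h0 hX hd
    exact ih hX'

theorem inv_start {n : ℕ} {s0 : Position} (h0 : Ok n s0) : Inv n s0 s0 s0.robot.2 := by
  have hm := h0.mem
  simp only [board, Set.mem_ofPred_eq] at hm
  refine ⟨le_rfl, le_rfl, h0, fun x h1 h2 => absurd (h1.trans h2) (lt_irrefl _), Or.inl ⟨rfl, ?_⟩⟩
  refine ⟨fun c hc _ => hc, ⟨[], GR.nil _⟩, ?_⟩
  have hg0 : GoodK s0 (s0.robot.1, s0.robot.2) s0.blocks 0 :=
    ⟨[], GR.nil _, ⟨[], [], by simp, Or.inl rfl, by simp⟩, by simp⟩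
  intro σ hσ
  have hN : FrontN s0 s0.blocks s0.robot.2 s0.robot.1 := by
    refine ⟨s0.blocks, hg0.mono ?_, fun c hc _ => hc⟩
    show (0 : ℤ) ≤ 3 * s0.robot.2 + 2
    omega
  by_cases hσ' : σ = s0.robot.1
  · left
    subst hσ'
    exact Or.inl hN
  · have hσ2 : σ = 1 - s0.robot.1 := by have := h0.row; omega
    by_cases hb : (σ, s0.robot.2) ∈ s0.blocks
    · exact Or.inr ⟨hb, hb, Or.inr rfl⟩
    · left
      right
      refine ⟨⟨s0.blocks, ?_, fun c hc _ => hc⟩, ?_⟩
      · rw [hσ2]
        refine (GoodK.vert hg0 h0.row (by rw [← hσ2]; exact hb)).mono ?_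
        show (0 : ℤ) + 2 ≤ 3 * s0.robot.2 + 3
        omega
      · rw [hσ2, show 1 - (1 - s0.robot.1) = s0.robot.1 by ring]
        exact hN

/-- every cell to the right of the start column that is reached at all is reached by a good
route -/
theorem right_reach {n : ℕ} {s0 s : Position} {l : List Dir} (h0 : Ok n s0) (h : GR l s0 s)
    (hx : s0.robot.2 < s.robot.2) : ∃ Q, Good s0 s.robot Q := by
  obtain ⟨X, hc, hsX, hs, hfin, hpart⟩ := inv_route h0 h (inv_start h0)
  have hrow := hs.row
  rcases hsX.lt_or_eq with hlt | heq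
  · rcases hfin s.robot.2 hx hlt s.robot.1 hrow with h | h
    · exact h
    · exact absurd h.1 hs.1
  · rcases hpart with ⟨hXc, _⟩ | ⟨_, u, l', hl, hu, hDu, hprev, hfr⟩
    · omega
    · subst heq
      rcases hfr s.robot.1 hrow with h | ⟨ha, _⟩
      · obtain ⟨Q, hQ, _⟩ := h.front
        exact ⟨Q, hQ⟩
      · exact absurd ha hs.1

end MP82a8ee
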