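import Pool.Agent.Lib.MP_82a8ee_lc.Main

set_option autoImplicit false

namespace MP82a8ee

/-- the opposite of a horizontal direction (vertical directions are kept) -/
def Dir.flip : Dir → Dir
  | .left => .right
  | .right => .left
  | .up => .up
  | .down => .down

/-- the mirror image of a cell -/
def mirC (n : ℕ) (c : ℤ × ℤ) : ℤ × ℤ := (c.1, (n : ℤ) - 1 - c.2)

theorem mirC_mirC (n : ℕ) (c : ℤ × ℤ) : mirC n (mirC n c) = c := by
  ext <;> simp [mirC]

theorem mirC_inj {n : ℕ} {c c' : ℤ × ℤ} (h : mirC n c = mirC n c') : c = c' := by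
  rw [← mirC_mirC n c, h, mirC_mirC]

theorem mirC_vec (n : ℕ) (c : ℤ × ℤ) (d : Dir) :
    mirC n (c + d.vec) = mirC n c + d.flip.vec := by
  cases d <;> ext <;> simp [mirC, Dir.vec, Dir.flip] <;> ring

theorem Dir.flip_flip (d : Dir) : d.flip.flip = d := by cases d <;> rfl

/-- the mirror image of a position -/
def mirP (n : ℕ) (s : Position) : Position := ⟨mirC n ⁻¹' s.blocks, mirC n s.robot⟩

theorem mirP_mirP (n : ℕ) (s : Position) : mirP n (mirP n s) = s := by
  obtain ⟨B, p⟩ := s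
  simp only [mirP, mirC_mirC, ← Set.preimage_comp]
  congr 1
  ext c
  simp [mirC_mirC]

theorem G.mir {d : Dir} {s t : Position} (n : ℕ) (h : G d s t) :
    G d.flip (mirP n s) (mirP n t) := by
  rw [G_iff] at h ⊢
  obtain ⟨h1, h2⟩ := h
  have e1 : (mirP n t).robot = (mirP n s).robot + d.flip.vec := by
    simp only [mirP]; rw [h1, mirC_vec]
  refine ⟨e1, ?_⟩
  rcases h2 with ⟨h2, h3⟩ | ⟨h2, h3, h4⟩
  · left
    refine ⟨?_, ?_⟩
    · show mirC n (mirC n t.robot) ∉ s.blocks
      rw [mirC_mirC]; exact h2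
    · simp only [mirP]; rw [h3]
  · right
    refine ⟨?_, ?_, ?_⟩
    · show mirC n (mirC n t.robot) ∈ s.blocks
      rw [mirC_mirC]; exact h2
    · show mirC n (mirC n t.robot + d.flip.vec) ∉ s.blocks
      rw [mirC_vec, mirC_mirC, Dir.flip_flip]; exact h3
    · ext c
      show mirC n c ∈ t.blocks ↔ c ∈ insert (mirC n t.robot + d.flip.vec)
        ((mirC n ⁻¹' s.blocks) \ {mirC n t.robot})
      rw [h4, ← mirC_vec]
      simp only [Set.mem_insert_iff, Set.mem_sdiff, Set.mem_singleton_iff, Set.mem_preimage]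
      have k1 : ∀ a : ℤ × ℤ, mirC n c = a ↔ c = mirC n a := by
        intro a
        constructor
        · rintro rfl; rw [mirC_mirC]
        · rintro rfl; rw [mirC_mirC]
      rw [k1, k1]

theorem GR.mir {l : List Dir} {s t : Position} (n : ℕ) (h : GR l s t) :
    GR (l.map Dir.flip) (mirP n s) (mirP n t) := by
  induction h with
  | nil s => exact GR.nil _
  | cons hd _ ih => exact GR.cons (hd.mir n) ih

theorem Ok.mir {n : ℕ} {s : Position} (h : Ok n s) : Ok n (mirP n s) := by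
  refine ⟨?_, ?_⟩
  · show mirC n (mirC n s.robot) ∉ s.blocks
    rw [mirC_mirC]; exact h.1
  · intro c hc
    apply h.2
    intro hc'
    apply hc
    simp only [board, Set.mem_ofPred_eq, mirC] at hc' ⊢
    push_cast at hc' ⊢
    omega

/-- shape of a route with main horizontal direction `h` -/
def Shape (h : Dir) (l : List Dir) : Prop :=
  ∃ pre mono : List Dir, l = pre ++ mono ∧
    (pre = [] ∨ ∃ v : Dir, (v = Dir.up ∨ v = Dir.down) ∧ pre = [h.flip, v, h]) ∧
    ∀ d ∈ mono, d ≠ h.flip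

theorem LRl.shape {l : List Dir} (h : LRl l) : Shape Dir.right l := h

theorem Shape.flip {l : List Dir} {h : Dir} (hl : Shape h l) : Shape h.flip (l.map Dir.flip) := by
  obtain ⟨pre, mono, rfl, h2, h3⟩ := hl
  refine ⟨pre.map Dir.flip, mono.map Dir.flip, by simp, ?_, ?_⟩
  · rcases h2 with h2 | ⟨v, hv, h2⟩
    · left; rw [h2]; rfl
    · right
      refine ⟨v, hv, ?_⟩
      rw [h2]
      rcases hv with rfl | rfl <;> rfl
  · intro d hd
    rw [List.mem_map] at hd
    obtain ⟨e, he, rfl⟩ := hd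
    intro h
    apply h3 e he
    rw [← Dir.flip_flip e, h, Dir.flip_flip]

/-- the mirror image of `right_reach` -/
theorem left_reach {n : ℕ} {s0 s : Position} {l : List Dir} (h0 : Ok n s0) (h : GR l s0 s)
    (hx : s.robot.2 < s0.robot.2) :
    ∃ (Q : Set (ℤ × ℤ)) (l : List Dir), GR l s0 ⟨Q, s.robot⟩ ∧ Shape Dir.left l ∧
      2 * (l.length : ℤ) ≤ 3 * ((n : ℤ) - 1 - s.robot.2) + 3 := by
  obtain ⟨Q, l', h1, h2, h3⟩ := right_reach h0.mir (h.mir n)
    (by show (n : ℤ) - 1 - s0.robot.2 < (n : ℤ) - 1 - s.robot.2; omega)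
  have h4 := h1.mir n
  rw [mirP_mirP] at h4
  refine ⟨mirC n ⁻¹' Q, l'.map Dir.flip, ?_, h2.shape.flip, ?_⟩
  · have : mirP n ⟨Q, (mirP n s).robot⟩ = ⟨mirC n ⁻¹' Q, s.robot⟩ := by
      simp only [mirP, mirC_mirC]
    rw [this] at h4
    exact h4
  · rw [List.length_map]
    exact h3

end MP82a8ee
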