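import Pool.Agent.Lib.MP_82a8ee_lc.Mirror

set_option autoImplicit false

namespace MP82a8ee

theorem GR.removal {l : List Dir} {s t : Position} (h : GR l s t) {c : ℤ × ℤ}
    (hc : c ∈ s.blocks) (hc' : c ∉ t.blocks) :
    ∃ (l1 : List Dir) (a b : Position) (d : Dir), GR l1 s a ∧ G d a b ∧ c ∈ a.blocks ∧
      c ∉ b.blocks := by
  induction h with
  | nil s => exact absurd hc hc'
  | @cons d l s t u hd _ ih =>
    by_cases ht : c ∈ t.blocks
    · obtain ⟨l1, a, b, e, h1, h2, h3, h4⟩ := ih ht hc'
      exact ⟨d :: l1, a, b, e, GR.cons hd h1, h2, h3, h4⟩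
    · exact ⟨[], s, t, d, GR.nil _, hd, hc, ht⟩

theorem removed_any {n : ℕ} {d : Dir} {s t : Position} {X σ : ℤ} (h : G d s t) (hs : Ok n s)
    (ha : (σ, X) ∈ s.blocks) (hb : (σ, X) ∉ t.blocks) :
    (σ, X - 1) ∉ s.blocks ∧ (σ, X + 1) ∉ s.blocks := by
  have hk : t.robot = (σ, X) := by
    by_contra hne
    exact hb (h.keep ha (fun e => hne e.symm))
  by_cases hd : d = Dir.up ∨ d = Dir.down
  · exact absurd ha (hk ▸ (h.vertical hs hd).2)
  · rw [G_iff] at h
    obtain ⟨h1, h2⟩ := h
    have e1 : t.robot.1 = s.robot.1 + d.vec.1 := by rw [h1]; rfl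
    have e2 : t.robot.2 = s.robot.2 + d.vec.2 := by rw [h1]; rfl
    rw [hk] at e1 e2
    rcases h2 with ⟨h2, h3⟩ | ⟨_, h3, h4⟩
    · exact absurd ha (hk ▸ h2)
    · cases d with
      | up => exact absurd (Or.inl rfl) hd
      | down => exact absurd (Or.inr rfl) hd
      | left =>
        simp only [Dir.vec] at e1 e2
        rw [hk, vec_left] at h3
        refine ⟨h3, ?_⟩
        have : s.robot = (σ, X + 1) := by ext <;> simp <;> omega
        exact this ▸ hs.1
      | right =>
        simp only [Dir.vec] at e1 e2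
        rw [hk, vec_right] at h3
        refine ⟨?_, h3⟩
        have : s.robot = (σ, X - 1) := by ext <;> simp <;> omega
        exact this ▸ hs.1

/-- every cell that is reached at all is reached by a short route of the given shape -/
theorem reach_G {n : ℕ} {s0 s : Position} {l : List Dir} (h0 : Ok n s0) (h : GR l s0 s) :
    ∃ (Q : Set (ℤ × ℤ)) (l' : List Dir) (e : Dir), (e = Dir.left ∨ e = Dir.right) ∧
      GR l' s0 ⟨Q, s.robot⟩ ∧ Shape e l' ∧ 2 * l'.length ≤ 3 * n := by
  have hs := h.ok h0
  have hm := hs.mem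
  have hm0 := h0.mem
  simp only [board, Set.mem_ofPred_eq] at hm hm0
  push_cast at hm hm0
  rcases lt_trichotomy s0.robot.2 s.robot.2 with hx | hx | hx
  · obtain ⟨Q, l', h1, h2, h3⟩ := right_reach h0 h hx
    refine ⟨Q, l', Dir.right, Or.inr rfl, h1, h2.shape, ?_⟩
    have : 2 * (l'.length : ℤ) ≤ 3 * s.robot.2 + 3 := h3
    omega
  · by_cases hrow : s.robot.1 = s0.robot.1
    · have he : s.robot = s0.robot := Prod.ext hrow hx.symm
      refine ⟨s0.blocks, [], Dir.right, Or.inr rfl, ?_, ⟨[], [], by simp, Or.inl rfl, by simp⟩, ?_⟩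
      · rw [he]; exact GR.nil _
      · simp only [List.length_nil]; omega
    · have hσ : s.robot.1 = 1 - s0.robot.1 := by omega
      have hsr : s.robot = (1 - s0.robot.1, s0.robot.2) := Prod.ext hσ hx.symm
      by_cases hb : (1 - s0.robot.1, s0.robot.2) ∈ s0.blocks
      · -- blocked at the start
        have hb' : (1 - s0.robot.1, s0.robot.2) ∉ s.blocks := hsr ▸ hs.1
        obtain ⟨l1, a, b, d, g1, g2, g3, g4⟩ := h.removal hb hb'
        have ha := g1.ok h0
        obtain ⟨f1, f2⟩ := removed_any g2 ha g3 g4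
        have e1 : (1 - s0.robot.1, s0.robot.2 - 1) ∉ s0.blocks := by
          intro hh
          exact f1 (g1.pair h0 (r := 1 - s0.robot.1) (y := s0.robot.2 - 1) hh (by simpa using hb)).1
        have e2 : (1 - s0.robot.1, s0.robot.2 + 1) ∉ s0.blocks := by
          intro hh
          exact f2 (g1.pair h0 (r := 1 - s0.robot.1) (y := s0.robot.2) hb hh).2
        cases h with
        | nil => exact absurd rfl hrow
        | @cons d l s t u hd hl =>
          have hdv : ¬ (d = Dir.up ∨ d = Dir.down) := by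
            intro hdv
            have := hd.vertical h0 hdv
            exact this.2 (this.1 ▸ hb)
          cases d with
          | up => exact absurd (Or.inl rfl) hdv
          | down => exact absurd (Or.inr rfl) hdv
          | left =>
            obtain ⟨Q', ⟨l', h1, h2, h3⟩, _⟩ := lvr h0 rfl ⟨t, hd⟩ hb e1 e2
            refine ⟨Q', l', Dir.right, Or.inr rfl, ?_, h2.shape, ?_⟩
            · rw [hsr]; exact h1
            · simp only at h3; omega
          | right =>
            have hh := lvr (n := n) (s0 := mirP n s0) h0.mir (σ := 1 - s0.robot.1) rfl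
              ⟨mirP n t, hd.mir n⟩ (by
                show mirC n (1 - s0.robot.1, (mirP n s0).robot.2) ∈ s0.blocks
                have : mirC n (1 - s0.robot.1, (mirP n s0).robot.2) =
                    (1 - s0.robot.1, s0.robot.2) := by
                  ext <;> simp [mirC, mirP]
                rw [this]; exact hb) (by
                show mirC n (1 - s0.robot.1, (mirP n s0).robot.2 - 1) ∉ s0.blocks
                have : mirC n (1 - s0.robot.1, (mirP n s0).robot.2 - 1) =
                    (1 - s0.robot.1, s0.robot.2 + 1) := by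
                  ext <;> simp [mirC, mirP]; ring
                rw [this]; exact e2) (by
                show mirC n (1 - s0.robot.1, (mirP n s0).robot.2 + 1) ∉ s0.blocks
                have : mirC n (1 - s0.robot.1, (mirP n s0).robot.2 + 1) =
                    (1 - s0.robot.1, s0.robot.2 - 1) := by
                  ext <;> simp [mirC, mirP]; ring
                rw [this]; exact e1)
            obtain ⟨Q', ⟨l', h1, h2, h3⟩, _⟩ := hh
            have h4 := h1.mir n
            rw [mirP_mirP] at h4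
            refine ⟨mirC n ⁻¹' Q', l'.map Dir.flip, Dir.left, Or.inl rfl, ?_, h2.shape.flip, ?_⟩
            · have : mirP n ⟨Q', (1 - s0.robot.1, (mirP n s0).robot.2)⟩ =
                  ⟨mirC n ⁻¹' Q', s.robot⟩ := by
                rw [hsr]
                simp only [mirP]
                congr 1
                ext <;> simp [mirC]
              rw [this] at h4
              exact h4
            · rw [List.length_map]
              have h3' : 2 * (l'.length : ℤ) ≤ 3 * ((n : ℤ) - 1 - s0.robot.2) + 3 := h3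
              omega
      · obtain ⟨v, hv, hV⟩ := vert (Q := s0.blocks) (r := s0.robot.1) (x := s0.robot.2) h0.row hb
        refine ⟨s0.blocks, [v], Dir.right, Or.inr rfl, ?_, ⟨[], [v], by simp, Or.inl rfl, ?_⟩, ?_⟩
        · rw [hsr]; exact GR.single hV
        · intro d hd
          rw [List.mem_singleton] at hd
          subst hd
          rcases hv with rfl | rfl <;> decide
        · simp only [List.length_singleton]; omega
  · obtain ⟨Q, l', h1, h2, h3⟩ := left_reach h0 h hx
    refine ⟨Q, l', Dir.left, Or.inl rfl, h1, h2, ?_⟩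
    omega

/-! transfer to the board -/

theorem Move.toG {n : ℕ} {d : Dir} {s t : Position} (h : Move 2 n d s t) :
    G d ⟨s.blocks ∪ (board 2 n)ᶜ, s.robot⟩ ⟨t.blocks ∪ (board 2 n)ᶜ, t.robot⟩ := by
  rw [G_iff]
  cases h with
  | walk B p hb hf =>
    refine ⟨rfl, Or.inl ⟨?_, rfl⟩⟩
    rintro (h | h)
    · exact hf h
    · exact h hb
  | push B p hb hB hb' hf =>
    refine ⟨rfl, Or.inr ⟨Or.inl hB, ?_, ?_⟩⟩
    · rintro (h | h)
      · exact hf h
      · exact h hb'
    · ext c
      simp only [Set.mem_union, Set.mem_insert_iff, Set.mem_sdiff, Set.mem_singleton_iff,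
        Set.mem_compl_iff]
      constructor
      · rintro ((h | ⟨h, h'⟩) | h)
        · exact Or.inl h
        · exact Or.inr ⟨Or.inl h, h'⟩
        · refine Or.inr ⟨Or.inr h, ?_⟩
          rintro rfl
          exact h hb
      · rintro (h | ⟨h | h, h'⟩)
        · exact Or.inl (Or.inl h)
        · exact Or.inl (Or.inr ⟨h, h'⟩)
        · exact Or.inr h

theorem Route.toG {n : ℕ} {l : List Dir} {s t : Position} (h : Route 2 n l s t) :
    GR l ⟨s.blocks ∪ (board 2 n)ᶜ, s.robot⟩ ⟨t.blocks ∪ (board 2 n)ᶜ, t.robot⟩ := by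
  induction h with
  | nil s => exact GR.nil _
  | cons hd _ ih => exact GR.cons hd.toG ih

theorem G.toMove {n : ℕ} {d : Dir} {B : Set (ℤ × ℤ)} {p : ℤ × ℤ} {t : Position}
    (hB : B ⊆ board 2 n) (hok : Ok n ⟨B ∪ (board 2 n)ᶜ, p⟩)
    (h : G d ⟨B ∪ (board 2 n)ᶜ, p⟩ t) :
    ∃ B' : Set (ℤ × ℤ), B' ⊆ board 2 n ∧ t = ⟨B' ∪ (board 2 n)ᶜ, p + d.vec⟩ ∧
      Move 2 n d ⟨B, p⟩ ⟨B', p + d.vec⟩ := by
  have hm := hok.mem
  rw [G_iff] at h
  obtain ⟨T, q⟩ := t
  obtain ⟨h1, h2⟩ := h
  simp only at h1 h2 hm
  subst h1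
  rcases h2 with ⟨h2, h3⟩ | ⟨h2, h3, h4⟩
  · have hb : p + d.vec ∈ board 2 n := by
      by_contra hh; exact h2 (Or.inr hh)
    exact ⟨B, hB, by rw [h3], Move.walk B p hb (fun hh => h2 (Or.inl hh))⟩
  · have hb2 : p + d.vec + d.vec ∈ board 2 n := by
      by_contra hh; exact h3 (Or.inr hh)
    have hb : p + d.vec ∈ board 2 n := by
      simp only [board, Set.mem_ofPred_eq, Prod.fst_add, Prod.snd_add] at hm hb2 ⊢
      push_cast at hm hb2 ⊢
      cases d <;> simp only [Dir.vec] at hb2 ⊢ <;> omega
    have hB' : p + d.vec ∈ B := by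
      rcases h2 with h | h
      · exact h
      · exact absurd hb h
    refine ⟨insert (p + d.vec + d.vec) (B \ {p + d.vec}), ?_, ?_, ?_⟩
    · intro c hc
      rcases hc with hc | hc
      · rw [hc]; exact hb2
      · exact hB hc.1
    · congr 1
      rw [h4]
      ext c
      simp only [Set.mem_union, Set.mem_insert_iff, Set.mem_sdiff, Set.mem_singleton_iff,
        Set.mem_compl_iff]
      constructor
      · rintro (h | ⟨h | h, h'⟩)
        · exact Or.inl (Or.inl h)
        · exact Or.inl (Or.inr ⟨h, h'⟩)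
        · exact Or.inr h
      · rintro ((h | ⟨h, h'⟩) | h)
        · exact Or.inl h
        · exact Or.inr ⟨Or.inl h, h'⟩
        · refine Or.inr ⟨Or.inr h, ?_⟩
          rintro rfl
          exact h hb
    · exact Move.push B p hb hB' hb2 (fun hh => h3 (Or.inl hh))

theorem GR.toRoute {n : ℕ} {l : List Dir} {u v : Position} (h : GR l u v) :
    ∀ {B : Set (ℤ × ℤ)} {p : ℤ × ℤ}, B ⊆ board 2 n → u = ⟨B ∪ (board 2 n)ᶜ, p⟩ →
      Ok n u → ∃ B' : Set (ℤ × ℤ), Route 2 n l ⟨B, p⟩ ⟨B', v.robot⟩ ∧
        v.blocks = B' ∪ (board 2 n)ᶜ := by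
  induction h with
  | nil s =>
    intro B p hB hu _
    subst hu
    exact ⟨B, Route.nil _, rfl⟩
  | cons hd _ ih =>
    intro B p hB hu hok
    subst hu
    obtain ⟨B1, hB1, ht, hm⟩ := hd.toMove hB hok
    obtain ⟨B2, h2, h3⟩ := ih hB1 ht (hd.ok hok)
    exact ⟨B2, Route.cons hm h2, h3⟩

end MP82a8ee
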