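import Pool.Agent.Lib.MP_82a8ee_lc.SameCol

set_option autoImplicit false

namespace MP82a8ee

/-- words whose target lies in a column to the right of the robot and can be reached -/
def LR : Language Column :=
  {w | ∃ u a v, w = u ++ a :: v ∧ ∃ r : Fin 2, rob a r = true ∧ blk a r = false ∧
    condR (summ u.reverse) a (summ v) r}

/-- words whose target lies in the column of the robot and can be reached -/
def LS : Language Column :=
  {w | ∃ u a v, w = u ++ a :: v ∧ ∃ r : Fin 2, rob a r = true ∧ blk a r = false ∧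
    (tgt a r = true ∨ (tgt a r.rev = true ∧ condS (summ u.reverse) a (summ v) r))}

def UR : Language Column := {w | ∃ p, cellsWith (fun s => s.2.1) w = {p}}

def UT : Language Column := {w | ∃ p, cellsWith (fun s => s.2.2) w = {p}}

theorem LR_regular : LR.IsRegular :=
  regular_split' summ summStep summ_cons
    (fun tu a tv => ∃ r : Fin 2, rob a r = true ∧ blk a r = false ∧ condR tu a tv r) _
    (fun _ => Iff.rfl)

theorem LS_regular : LS.IsRegular :=
  regular_split' summ summStep summ_cons
    (fun tu a tv => ∃ r : Fin 2, rob a r = true ∧ blk a r = false ∧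
      (tgt a r = true ∨ (tgt a r.rev = true ∧ condS tu a tv r))) _
    (fun _ => Iff.rfl)

/-- solvability in terms of the unbounded grid -/
theorem solvable_iff (w : List Column) (p q : ℤ × ℤ) (hp : p ∉ conf w) :
    Solvable 2 w.length (cellsWith (fun s => s.1) w) p q ↔
      ∃ (l : List Dir) (C' : Set (ℤ × ℤ)), GR l ⟨conf w, p⟩ ⟨C', q⟩ := by
  constructor
  · rintro ⟨l, B', h⟩
    exact ⟨l, _, h.toG⟩
  · rintro ⟨l, C', h⟩
    obtain ⟨B', h1, _⟩ := h.toRoute (n := w.length) (cellsWith_subset _ w) rfl
      ⟨hp, fun c hc => Or.inr hc⟩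
    exact ⟨l, B', h1⟩

theorem mid_mem (f : Bool × Bool × Bool → Bool) (u : List Column) (a : Column) (v : List Column)
    (i : Fin 2) (h : f (a i) = true) :
    ((i : ℤ), (u.length : ℤ)) ∈ cellsWith f (u ++ a :: v) := by
  refine ⟨i, u.length, a, ?_, rfl, h⟩
  rw [List.getElem?_append_right le_rfl, Nat.sub_self, List.getElem?_cons_zero]

theorem mid_mem' (f : Bool × Bool × Bool → Bool) (u : List Column) (a : Column) (v : List Column)
    (i : Fin 2) (h : ((i : ℤ), (u.length : ℤ)) ∈ cellsWith f (u ++ a :: v)) :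
    f (a i) = true := by
  obtain ⟨i', j', a', h1, h2, h3⟩ := h
  rw [Prod.ext_iff] at h2
  simp only at h2
  have e1 := fin_cast_inj h2.1
  have e2 : j' = u.length := by omega
  subst e1 e2
  rw [List.getElem?_append_right le_rfl, Nat.sub_self, List.getElem?_cons_zero] at h1
  rw [Option.some.inj h1]
  exact h3

theorem TC_mem {u : List Column} {a : Column} {v : List Column} {t : ℤ × ℤ}
    (h : t ∈ TC (u.length : ℤ) v) : t ∈ cellsWith (fun s => s.2.2) (u ++ a :: v) := by
  obtain ⟨i, k, b, h1, h2, h3⟩ := h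
  refine ⟨i, u.length + 1 + k, b, ?_, ?_, h3⟩
  · rw [List.getElem?_append_right (by omega),
      show u.length + 1 + k - u.length = k + 1 by omega, List.getElem?_cons_succ]
    exact h1
  · rw [h2]; push_cast; rfl

theorem mem_TC {u : List Column} {a : Column} {v : List Column} {t : ℤ × ℤ}
    (h : t ∈ cellsWith (fun s => s.2.2) (u ++ a :: v)) (ht : (u.length : ℤ) < t.2) :
    t ∈ TC (u.length : ℤ) v := by
  obtain ⟨i, j, b, h1, rfl, h3⟩ := h
  simp only at ht
  obtain ⟨k, rfl⟩ : ∃ k, j = u.length + 1 + k := ⟨j - (u.length + 1), by omega⟩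
  refine ⟨i, k, b, ?_, ?_, h3⟩
  · rw [List.getElem?_append_right (by omega),
      show u.length + 1 + k - u.length = k + 1 by omega, List.getElem?_cons_succ] at h1
    exact h1
  · push_cast; rfl

/-- every solvable word splits at the column of the robot -/
theorem split_robot {w : List Column} (hw : w ∈ twoRow) :
    ∃ (u : List Column) (a : Column) (v : List Column) (r : Fin 2) (q : ℤ × ℤ),
      w = u ++ a :: v ∧ rob a r = true ∧ blk a r = false ∧
      q ∈ cellsWith (fun s => s.2.2) w ∧
      ∃ (l : List Dir) (C' : Set (ℤ × ℤ)),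
        GR l ⟨conf w, ((r : ℤ), (u.length : ℤ))⟩ ⟨C', q⟩ := by
  obtain ⟨p, q, hp, hq, hpb, hs⟩ := hw
  have hmem : p ∈ cellsWith (fun s => s.2.1) w := by rw [hp]; rfl
  obtain ⟨i, j, a, h1, h2, h3⟩ := hmem
  have hj : j < w.length := by
    rw [List.getElem?_eq_some_iff] at h1
    exact h1.1
  have ha : w[j] = a := by
    rw [List.getElem?_eq_getElem hj] at h1
    exact Option.some.inj h1
  have hw : w = w.take j ++ a :: w.drop (j + 1) := by
    rw [← ha, List.getElem_cons_drop, List.take_append_drop]
  have hlen : (w.take j).length = j := by rw [List.length_take]; omega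
  refine ⟨w.take j, a, w.drop (j + 1), i, q, hw, h3, ?_, by rw [hq]; rfl, ?_⟩
  · by_contra hb
    apply hpb
    rw [h2]
    exact ⟨i, j, a, h1, rfl, by simpa [blk] using hb⟩
  · rw [hlen, ← h2]
    rw [solvable_iff] at hs
    · exact hs
    · rintro (h | h)
      · exact hpb h
      · apply h
        rw [h2]
        show 0 ≤ (i : ℤ) ∧ (i : ℤ) < ((2 : ℕ) : ℤ) ∧ 0 ≤ (j : ℤ) ∧ (j : ℤ) < (w.length : ℤ)
        have := fin_row i
        push_cast
        omega

/-- the converse -/
theorem twoRow_of {u : List Column} {a : Column} {v : List Column} {r : Fin 2} {t : ℤ × ℤ}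
    (hR : u ++ a :: v ∈ UR) (hT : u ++ a :: v ∈ UT) (h1 : rob a r = true) (h2 : blk a r = false)
    (h3 : t ∈ cellsWith (fun s => s.2.2) (u ++ a :: v))
    (h4 : ∃ (l : List Dir) (C' : Set (ℤ × ℤ)),
        GR l ⟨conf (u ++ a :: v), ((r : ℤ), (u.length : ℤ))⟩ ⟨C', t⟩) :
    u ++ a :: v ∈ twoRow := by
  obtain ⟨p, hp⟩ := hR
  obtain ⟨q, hq⟩ := hT
  have e1 : ((r : ℤ), (u.length : ℤ)) = p := by
    have := mid_mem (fun s => s.2.1) u a v r h1
    rw [hp] at this
    exact this
  have e2 : t = q := by rw [hq] at h3; exact h3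
  subst e1 e2
  have hnc : ((r : ℤ), (u.length : ℤ)) ∉ conf (u ++ a :: v) := by
    rw [conf_mid, h2]; simp
  refine ⟨_, _, hp, hq, fun h => hnc (Or.inl h), ?_⟩
  rw [solvable_iff _ _ _ hnc]
  exact h4

/-! the mirror image of a word -/

theorem cells_reverse (f : Bool × Bool × Bool → Bool) (w : List Column) :
    cellsWith f w.reverse = mirC w.length ⁻¹' cellsWith f w := by
  have key : ∀ (w : List Column) (c : ℤ × ℤ), c ∈ cellsWith f w → mirC w.length c ∈
      cellsWith f w.reverse := by
    rintro w c ⟨i, j, a, h1, rfl, h3⟩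
    have hj : j < w.length := by
      rw [List.getElem?_eq_some_iff] at h1
      exact h1.1
    refine ⟨i, w.length - 1 - j, a, ?_, ?_, h3⟩
    · rw [List.getElem?_reverse (by omega), show w.length - 1 - (w.length - 1 - j) = j by omega]
      exact h1
    · ext
      · rfl
      · show (w.length : ℤ) - 1 - (j : ℤ) = ((w.length - 1 - j : ℕ) : ℤ)
        omega
  ext c
  constructor
  · intro h
    have := key w.reverse c h
    rw [List.reverse_reverse, List.length_reverse] at this
    exact this
  · intro h
    have := key w (mirC w.length c) h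
    rw [mirC_mirC] at this
    exact this

theorem preimage_single (n : ℕ) (p : ℤ × ℤ) : mirC n ⁻¹' {p} = {mirC n p} := by
  ext c
  rw [Set.mem_preimage, Set.mem_singleton_iff, Set.mem_singleton_iff]
  constructor
  · rintro rfl; rw [mirC_mirC]
  · rintro rfl; rw [mirC_mirC]

theorem board_mir (n : ℕ) : mirC n ⁻¹' (board 2 n)ᶜ = (board 2 n)ᶜ := by
  ext c
  simp only [Set.mem_preimage, Set.mem_compl_iff, board, Set.mem_ofPred_eq, mirC]
  push_cast
  omega

theorem conf_reverse (w : List Column) : conf w.reverse = mirC w.length ⁻¹' conf w := by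
  rw [conf, conf, cells_reverse, List.length_reverse, Set.preimage_union, board_mir]

theorem twoRow_reverse {w : List Column} (h : w ∈ twoRow) : w.reverse ∈ twoRow := by
  obtain ⟨p, q, hp, hq, hpb, hs⟩ := h
  have hpw : p ∈ cellsWith (fun s => s.2.1) w := by rw [hp]; rfl
  have hpbd := cellsWith_subset _ _ hpw
  have hnc : p ∉ conf w := by
    rintro (h | h)
    · exact hpb h
    · exact h hpbd
  refine ⟨mirC w.length p, mirC w.length q, ?_, ?_, ?_, ?_⟩
  · rw [cells_reverse, hp, preimage_single]
  · rw [cells_reverse, hq, preimage_single]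
  · rw [cells_reverse, Set.mem_preimage, mirC_mirC]; exact hpb
  · rw [solvable_iff]
    · rw [solvable_iff _ _ _ hnc] at hs
      obtain ⟨l, C', hl⟩ := hs
      have := hl.mir w.length
      refine ⟨l.map Dir.flip, mirC w.length ⁻¹' C', ?_⟩
      rw [conf_reverse]
      exact this
    · rw [conf_reverse, Set.mem_preimage, mirC_mirC]; exact hnc

theorem UR_reverse {w : List Column} (h : w ∈ UR) : w.reverse ∈ UR := by
  obtain ⟨p, hp⟩ := h
  exact ⟨mirC w.length p, by rw [cells_reverse, hp, preimage_single]⟩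

theorem UT_reverse {w : List Column} (h : w ∈ UT) : w.reverse ∈ UT := by
  obtain ⟨p, hp⟩ := h
  exact ⟨mirC w.length p, by rw [cells_reverse, hp, preimage_single]⟩

theorem LR_sub {w : List Column} (hR : w ∈ UR) (hT : w ∈ UT) (h : w ∈ LR) : w ∈ twoRow := by
  obtain ⟨u, a, v, rfl, r, h1, h2, h3⟩ := h
  obtain ⟨t, ht, hl⟩ := (right_sem u a v r h2).2 h3
  exact twoRow_of hR hT h1 h2 (TC_mem ht) hl

theorem LS_sub {w : List Column} (hR : w ∈ UR) (hT : w ∈ UT) (h : w ∈ LS) : w ∈ twoRow := by
  obtain ⟨u, a, v, rfl, r, h1, h2, h3⟩ := h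
  rcases h3 with h3 | ⟨h3, h4⟩
  · exact twoRow_of hR hT h1 h2 (mid_mem _ u a v r h3) ⟨[], _, GR.nil _⟩
  · exact twoRow_of hR hT h1 h2 (mid_mem _ u a v r.rev h3) ((same_sem u a v r h2).2 h4)

theorem twoRow_eq : twoRow = UR ⊓ UT ⊓ (LS + (LR + LR.reverse)) := by
  ext w
  constructor
  · intro h
    obtain ⟨p, q, hp, hq, _, _⟩ := id h
    refine ⟨⟨⟨p, hp⟩, ⟨q, hq⟩⟩, ?_⟩
    have aux : ∀ w ∈ twoRow, w ∈ LS ∨ w ∈ LR ∨ ∃ (u : List Column) (a : Column)
        (v : List Column) (r : Fin 2) (q : ℤ × ℤ), w = u ++ a :: v ∧ rob a r = true ∧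
          q ∈ cellsWith (fun s => s.2.2) w ∧ q.2 < (u.length : ℤ) := by
      intro w hw
      obtain ⟨u, a, v, r, q, rfl, h1, h2, h3, h4⟩ := split_robot hw
      rcases lt_trichotomy (u.length : ℤ) q.2 with hlt | heq | hgt
      · right; left
        exact ⟨u, a, v, rfl, r, h1, h2, (right_sem u a v r h2).1 ⟨q, mem_TC h3 hlt, h4⟩⟩
      · left
        refine ⟨u, a, v, rfl, r, h1, h2, ?_⟩
        obtain ⟨l, C', hl⟩ := h4
        have hrow := (hl.ok (conf_ok h2)).row
        have hq' : q = ((r : ℤ), (u.length : ℤ)) ∨ q = (((r.rev : Fin 2) : ℤ), (u.length : ℤ)) := by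
          simp only at hrow
          have e := rev_cast r
          have e' := fin_row r
          by_cases hh : q.1 = (r : ℤ)
          · left; exact Prod.ext hh heq.symm
          · right
            refine Prod.ext ?_ heq.symm
            simp only
            omega
        rcases hq' with rfl | rfl
        · exact Or.inl (mid_mem' (fun s => s.2.2) u a v r h3)
        · exact Or.inr ⟨mid_mem' (fun s => s.2.2) u a v r.rev h3,
            (same_sem u a v r h2).1 ⟨l, C', hl⟩⟩
      · right; right
        exact ⟨u, a, v, r, q, rfl, h1, h3, hgt⟩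
    rcases aux w h with h1 | h1 | ⟨u, a, v, r, q', hw, h1, h2, h3⟩
    · exact Or.inl h1
    · exact Or.inr (Or.inl h1)
    · right; right
      show w.reverse ∈ LR
      rcases aux w.reverse (twoRow_reverse h) with k | k | ⟨u1, a1, v1, r1, q1, hw1, k1, k2, k3⟩
      · -- the target would be in the column of the robot
        exfalso
        obtain ⟨u1, a1, v1, hw1, r1, k1, k2, k3⟩ := k
        have hrob : cellsWith (fun s => s.2.1) w.reverse = {mirC w.length p} := by
          rw [cells_reverse, hp, preimage_single]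
        have e1 : ((r1 : ℤ), (u1.length : ℤ)) ∈ cellsWith (fun s => s.2.1) w.reverse := by
          rw [hw1]; exact mid_mem _ u1 a1 v1 r1 k1
        rw [hrob, Set.mem_singleton_iff] at e1
        have e2 : ((r : ℤ), (u.length : ℤ)) ∈ cellsWith (fun s => s.2.1) w := by
          rw [hw]; exact mid_mem _ u a v r h1
        rw [hp, Set.mem_singleton_iff] at e2
        have e3 : ∃ i : Fin 2, ((i : ℤ), (u1.length : ℤ)) ∈ cellsWith (fun s => s.2.2)
            w.reverse := by
          rcases k3 with k3 | ⟨k3, _⟩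
          · exact ⟨r1, by rw [hw1]; exact mid_mem _ u1 a1 v1 r1 k3⟩
          · exact ⟨r1.rev, by rw [hw1]; exact mid_mem _ u1 a1 v1 r1.rev k3⟩
        obtain ⟨i, e3⟩ := e3
        rw [cells_reverse, Set.mem_preimage, hq, Set.mem_singleton_iff] at e3
        rw [hq, Set.mem_singleton_iff] at h2
        have f1 := congrArg Prod.snd e1
        have f2 := congrArg Prod.snd e2
        have f3 := congrArg Prod.snd e3
        simp only [mirC] at f1 f2 f3
        rw [h2] at h3
        omega
      · exact k
      · exfalso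
        have hrob : cellsWith (fun s => s.2.1) w.reverse = {mirC w.length p} := by
          rw [cells_reverse, hp, preimage_single]
        have e1 : ((r1 : ℤ), (u1.length : ℤ)) ∈ cellsWith (fun s => s.2.1) w.reverse := by
          rw [hw1]; exact mid_mem _ u1 a1 v1 r1 k1
        rw [hrob, Set.mem_singleton_iff] at e1
        have e2 : ((r : ℤ), (u.length : ℤ)) ∈ cellsWith (fun s => s.2.1) w := by
          rw [hw]; exact mid_mem _ u a v r h1
        rw [hp, Set.mem_singleton_iff] at e2
        rw [cells_reverse, Set.mem_preimage, hq, Set.mem_singleton_iff] at k2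
        rw [hq, Set.mem_singleton_iff] at h2
        have f1 := congrArg Prod.snd e1
        have f2 := congrArg Prod.snd e2
        have f3 := congrArg Prod.snd k2
        simp only [mirC] at f1 f2 f3
        rw [h2] at h3
        omega
  · rintro ⟨⟨hR, hT⟩, h | h | h⟩
    · exact LS_sub hR hT h
    · exact LR_sub hR hT h
    · have h' : w.reverse ∈ LR := h
      have := twoRow_reverse (LR_sub (UR_reverse hR) (UT_reverse hT) h')
      rw [List.reverse_reverse] at this
      exact this

theorem twoRow_regular : twoRow.IsRegular := by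
  rw [twoRow_eq]
  exact ((unique_regular _).inf (unique_regular _)).inf
    (LS_regular.add (LR_regular.add LR_regular.reverse))

end MP82a8ee
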