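import Pool.Agent.Lib.MP_82a8ee_lc.Words

set_option autoImplicit false

namespace MP82a8ee

/-- the configuration of a word on the unbounded grid -/
def conf (w : List Column) : Set (ℤ × ℤ) :=
  cellsWith (fun s => s.1) w ∪ (board 2 w.length)ᶜ

theorem mem_conf (w : List Column) (i : Fin 2) (j : ℕ) :
    ((i : ℤ), (j : ℤ)) ∈ conf w ↔ ∀ b, w[j]? = some b → blk b i = true := by
  constructor
  · rintro (⟨i', j', a, h1, h2, h3⟩ | h) b hb
    · rw [Prod.ext_iff] at h2
      simp only at h2
      have e1 := fin_cast_inj h2.1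
      have e2 : j = j' := by omega
      subst e1 e2
      rw [h1] at hb
      have := Option.some.inj hb
      subst this
      exact h3
    · exfalso
      apply h
      have hj : j < w.length := by
        rw [List.getElem?_eq_some_iff] at hb
        exact hb.1
      show 0 ≤ (i : ℤ) ∧ (i : ℤ) < ((2 : ℕ) : ℤ) ∧ 0 ≤ (j : ℤ) ∧ (j : ℤ) < (w.length : ℤ)
      have := fin_row i
      push_cast
      omega
  · intro h
    by_cases hj : j < w.length
    · left
      refine ⟨i, j, w[j], List.getElem?_eq_getElem hj, rfl, ?_⟩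
      exact h _ (List.getElem?_eq_getElem hj)
    · right
      intro hh
      have hh' : (j : ℤ) < (w.length : ℤ) := hh.2.2.2
      omega

theorem neg_conf (w : List Column) (i y : ℤ) (hy : y < 0) : (i, y) ∈ conf w := by
  right
  intro hh
  have hh' : (0 : ℤ) ≤ y := hh.2.2.1
  omega

theorem conf_desc (u : List Column) (a : Column) (v : List Column) :
    Desc (conf (u ++ a :: v)) (u.length : ℤ) v (fun _ => false) := by
  intro i k
  have := mem_conf (u ++ a :: v) i (u.length + 1 + k)
  push_cast at this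
  rw [this, List.getElem?_append_right (by omega),
    show u.length + 1 + k - u.length = k + 1 by omega, List.getElem?_cons_succ]
  simp

theorem conf_mid (u : List Column) (a : Column) (v : List Column) (i : Fin 2) :
    ((i : ℤ), (u.length : ℤ)) ∈ conf (u ++ a :: v) ↔ blk a i = true := by
  rw [mem_conf, List.getElem?_append_right le_rfl, Nat.sub_self, List.getElem?_cons_zero]
  simp

theorem conf_left1 (u : List Column) (a : Column) (v : List Column) (i : Fin 2) :
    ((i : ℤ), (u.length : ℤ) - 1) ∉ conf (u ++ a :: v) ↔ headFree u.reverse i = true := by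
  rcases List.eq_nil_or_concat u with rfl | ⟨u', b, rfl⟩
  · simp only [List.length_nil, List.reverse_nil, headFree]
    constructor
    · intro h; exact absurd (neg_conf _ _ _ (by norm_num)) h
    · intro h; exact absurd h (by simp)
  · rw [List.concat_eq_append]
    have := mem_conf ((u' ++ [b]) ++ a :: v) i u'.length
    rw [List.length_append, List.length_singleton]
    push_cast
    rw [show (u'.length : ℤ) + 1 - 1 = (u'.length : ℤ) by ring, this, List.append_assoc,
      List.getElem?_append_right le_rfl, Nat.sub_self]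
    simp [headFree]

theorem conf_left2 (u : List Column) (a : Column) (v : List Column) (i : Fin 2) :
    ((i : ℤ), (u.length : ℤ) - 2) ∉ conf (u ++ a :: v) ↔ headFree u.reverse.tail i = true := by
  rcases List.eq_nil_or_concat u with rfl | ⟨u', b, rfl⟩
  · simp only [List.length_nil, List.reverse_nil, List.tail_nil, headFree]
    constructor
    · intro h; exact absurd (neg_conf _ _ _ (by norm_num)) h
    · intro h; exact absurd h (by simp)
  · rw [List.concat_eq_append]
    have := conf_left1 u' b (a :: v) i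
    rw [List.length_append, List.length_singleton, List.append_assoc, List.reverse_append,
      List.reverse_singleton, List.singleton_append, List.singleton_append, List.tail_cons]
    push_cast
    rw [show (u'.length : ℤ) + 1 - 2 = (u'.length : ℤ) - 1 by ring]
    exact this

/-- a step to the left -/
theorem left_step {C : Set (ℤ × ℤ)} {r x : ℤ} (h : (r, x - 1) ∉ C ∨ (r, x - 2) ∉ C) :
    ∃ C1, G Dir.left ⟨C, (r, x)⟩ ⟨C1, (r, x - 1)⟩ := by
  by_cases h1 : (r, x - 1) ∈ C
  · have h2 : (r, x - 2) ∉ C := by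
      rcases h with h | h
      · exact absurd h1 h
      · exact h
    refine ⟨insert (((r, x - 1) : ℤ × ℤ) + Dir.left.vec) (C \ {(r, x - 1)}), ?_⟩
    rw [G_iff]
    refine ⟨(vec_left r x).symm, Or.inr ⟨h1, ?_, rfl⟩⟩
    show ((r, x - 1) : ℤ × ℤ) + Dir.left.vec ∉ C
    rw [vec_left, show x - 1 - 1 = x - 2 by ring]; exact h2
  · exact ⟨C, (G_iff _ _ _).2 ⟨(vec_left r x).symm, Or.inl ⟨h1, rfl⟩⟩⟩

theorem left_step' {C C1 : Set (ℤ × ℤ)} {r x : ℤ} {p : ℤ × ℤ}
    (h : G Dir.left ⟨C, (r, x)⟩ ⟨C1, p⟩) : p = (r, x - 1) ∧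
      ((r, x - 1) ∉ C ∨ (r, x - 2) ∉ C) ∧
      ∀ c : ℤ × ℤ, (c.1 ≠ r ∨ x ≤ c.2) → (c ∈ C1 ↔ c ∈ C) := by
  have h' := (G_iff _ _ _).1 h
  obtain ⟨e1, e2⟩ := h'
  simp only at e1 e2
  rw [vec_left] at e1
  subst e1
  rw [vec_left, show x - 1 - 1 = x - 2 by ring] at e2
  refine ⟨rfl, ?_, ?_⟩
  · rcases e2 with e2 | e2
    · exact Or.inl e2.1
    · exact Or.inr e2.2.1
  · intro c hc
    rcases e2 with ⟨_, e2⟩ | ⟨_, _, e2⟩
    · rw [e2]
    · rw [e2, Set.mem_insert_iff, Set.mem_sdiff, Set.mem_singleton_iff]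
      constructor
      · rintro (h | h)
        · rw [h] at hc; simp only at hc; omega
        · exact h.1
      · intro h
        refine Or.inr ⟨h, ?_⟩
        intro h'
        rw [h'] at hc; simp only at hc; omega

/-- the summary of one side of the robot's column -/
def summ (z : List Column) :
    (Fin 2 → Bool) × (Fin 2 → Bool) × (Fin 2 → (Fin 2 → Bool) → Bool) :=
  (headFree z, headFree z.tail, acc z)

def summStep (c : Column)
    (t : (Fin 2 → Bool) × (Fin 2 → Bool) × (Fin 2 → (Fin 2 → Bool) → Bool)) :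
    (Fin 2 → Bool) × (Fin 2 → Bool) × (Fin 2 → (Fin 2 → Bool) → Bool) :=
  (fun r => !(blk c r), t.1, fun r f =>
    if !(blk c r) && !(f r) then
      tgt c r || ((!(blk c r.rev) && !(f r.rev)) && tgt c r.rev) || t.2.2 r (fun _ => false) ||
        ((!(blk c r.rev) && !(f r.rev)) && t.2.2 r.rev (fun _ => false))
    else t.1 r && (
      tgt c r || ((!(blk c r.rev) && !(f r.rev)) && tgt c r.rev) || t.2.2 r (fun i => i = r) ||
        ((!(blk c r.rev) && !(f r.rev)) && t.2.2 r.rev (fun i => i = r))))

theorem summ_cons (c : Column) (z : List Column) : summ (c :: z) = summStep c (summ z) := by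
  rfl

/-- the condition of the right case -/
def condR (tu : (Fin 2 → Bool) × (Fin 2 → Bool) × (Fin 2 → (Fin 2 → Bool) → Bool)) (a : Column)
    (tv : (Fin 2 → Bool) × (Fin 2 → Bool) × (Fin 2 → (Fin 2 → Bool) → Bool)) (r : Fin 2) : Prop :=
  tv.2.2 r (fun _ => false) = true ∨
  (blk a r.rev = false ∧ tv.2.2 r.rev (fun _ => false) = true) ∨
  (blk a r.rev = true ∧ (tu.1 r = true ∨ tu.2.1 r = true) ∧ tu.1 r.rev = true ∧
    tv.1 r.rev = true ∧ (tv.2.2 r.rev (fun i => i = r.rev) = true ∨
      tv.2.2 r (fun i => i = r.rev) = true))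

end MP82a8ee
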