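import Pool.Agent.Lib.MP_82a8ee_lc.Sem

set_option autoImplicit false

namespace MP82a8ee

theorem same_col {n : ℕ} {s0 s : Position} {l : List Dir} {σ : ℤ} (h0 : Ok n s0)
    (h : GR l s0 s) (hs : s.robot = (σ, s0.robot.2)) (hb : (σ, s0.robot.2) ∈ s0.blocks) :
    (σ, s0.robot.2 - 1) ∉ s0.blocks ∧ (σ, s0.robot.2 + 1) ∉ s0.blocks ∧
      ((∃ t, G Dir.left s0 t) ∨ (∃ t, G Dir.right s0 t)) := by
  have hb' : (σ, s0.robot.2) ∉ s.blocks := hs ▸ (h.ok h0).1
  obtain ⟨l1, a, b, d, g1, g2, g3, g4⟩ := h.removal hb hb'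
  obtain ⟨f1, f2⟩ := removed_any g2 (g1.ok h0) g3 g4
  refine ⟨?_, ?_, ?_⟩
  · intro hh
    exact f1 (g1.pair h0 (r := σ) (y := s0.robot.2 - 1) hh (by simpa using hb)).1
  · intro hh
    exact f2 (g1.pair h0 (r := σ) (y := s0.robot.2) hb hh).2
  · cases h with
    | nil => exact absurd (hs ▸ hb) h0.1
    | @cons d l s t u hd hl =>
      have hr0 := h0.row
      have hne : σ ≠ s0.robot.1 := by
        rintro rfl
        exact h0.1 hb
      have hm := h0.free (c := s.robot)
      have hσ : σ = 1 - s0.robot.1 := by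
        have hrow := (hl.ok (hd.ok h0)).row
        rw [hs] at hrow
        simp only at hrow
        omega
      have hdv : ¬ (d = Dir.up ∨ d = Dir.down) := by
        intro hdv
        have := hd.vertical h0 hdv
        rw [hσ] at hb
        exact this.2 (this.1 ▸ hb)
      cases d with
      | up => exact absurd (Or.inl rfl) hdv
      | down => exact absurd (Or.inr rfl) hdv
      | left => exact Or.inl ⟨t, hd⟩
      | right => exact Or.inr ⟨t, hd⟩

theorem rvl {n : ℕ} {s0 : Position} (h0 : Ok n s0) {σ : ℤ}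
    (hσ : σ = 1 - s0.robot.1) (hR : ∃ t, G Dir.right s0 t)
    (hb : (σ, s0.robot.2) ∈ s0.blocks) (h1 : (σ, s0.robot.2 - 1) ∉ s0.blocks)
    (h2 : (σ, s0.robot.2 + 1) ∉ s0.blocks) :
    ∃ (Q' : Set (ℤ × ℤ)) (l : List Dir), GR l s0 ⟨Q', (σ, s0.robot.2)⟩ := by
  obtain ⟨t, hd⟩ := hR
  subst hσ
  have hh := lvr (n := n) (s0 := mirP n s0) h0.mir (σ := 1 - s0.robot.1) rfl
    ⟨mirP n t, hd.mir n⟩ (by
      show mirC n (1 - s0.robot.1, (mirP n s0).robot.2) ∈ s0.blocks
      have : mirC n (1 - s0.robot.1, (mirP n s0).robot.2) =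
          (1 - s0.robot.1, s0.robot.2) := by
        ext <;> simp [mirC, mirP]
      rw [this]; exact hb) (by
      show mirC n (1 - s0.robot.1, (mirP n s0).robot.2 - 1) ∉ s0.blocks
      have : mirC n (1 - s0.robot.1, (mirP n s0).robot.2 - 1) =
          (1 - s0.robot.1, s0.robot.2 + 1) := by
        ext <;> simp [mirC, mirP]; ring
      rw [this]; exact h2) (by
      show mirC n (1 - s0.robot.1, (mirP n s0).robot.2 + 1) ∉ s0.blocks
      have : mirC n (1 - s0.robot.1, (mirP n s0).robot.2 + 1) =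
          (1 - s0.robot.1, s0.robot.2 - 1) := by
        ext <;> simp [mirC, mirP]; ring
      rw [this]; exact h1)
  obtain ⟨Q', ⟨l', h1, _, _⟩, _⟩ := hh
  have h4 := h1.mir n
  rw [mirP_mirP] at h4
  have : mirP n ⟨Q', (1 - s0.robot.1, (mirP n s0).robot.2)⟩ =
      ⟨mirC n ⁻¹' Q', (1 - s0.robot.1, s0.robot.2)⟩ := by
    simp only [mirP]
    congr 1
    ext <;> simp [mirC]
  rw [this] at h4
  exact ⟨_, _, h4⟩

/-- a step to the right -/
theorem right_step {C : Set (ℤ × ℤ)} {r x : ℤ} (h : (r, x + 1) ∉ C ∨ (r, x + 2) ∉ C) :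
    ∃ C1, G Dir.right ⟨C, (r, x)⟩ ⟨C1, (r, x + 1)⟩ := by
  obtain ⟨Q', h1, _⟩ := ext_right (Q := C) (K := C) (r := r) (x := x) (fun c hc _ => hc) h
  exact ⟨Q', h1⟩

theorem right_step' {C : Set (ℤ × ℤ)} {r x : ℤ} {t : Position}
    (h : G Dir.right ⟨C, (r, x)⟩ t) : (r, x + 1) ∉ C ∨ (r, x + 2) ∉ C := by
  have h' := (G_iff _ _ _).1 h
  obtain ⟨e1, e2⟩ := h'
  simp only at e1 e2
  rw [vec_right] at e1
  rw [e1, vec_right, show x + 1 + 1 = x + 2 by ring] at e2
  rcases e2 with e2 | e2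
  · exact Or.inl e2.1
  · exact Or.inr e2.2.1

/-- the condition of the case of the same column -/
def condS (tu : (Fin 2 → Bool) × (Fin 2 → Bool) × (Fin 2 → (Fin 2 → Bool) → Bool)) (a : Column)
    (tv : (Fin 2 → Bool) × (Fin 2 → Bool) × (Fin 2 → (Fin 2 → Bool) → Bool)) (r : Fin 2) : Prop :=
  blk a r.rev = false ∨ (tu.1 r.rev = true ∧ tv.1 r.rev = true ∧
    ((tu.1 r = true ∨ tu.2.1 r = true) ∨ (tv.1 r = true ∨ tv.2.1 r = true)))

theorem conf_right2 (u : List Column) (a : Column) (v : List Column) (i : Fin 2) :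
    ((i : ℤ), (u.length : ℤ) + 2) ∉ conf (u ++ a :: v) ↔ headFree v.tail i = true := by
  have := (conf_desc u a v) i 1
  rw [show (u.length : ℤ) + 1 + ((1 : ℕ) : ℤ) = (u.length : ℤ) + 2 by push_cast; ring] at this
  rw [this]
  cases v with
  | nil => simp [headFree]
  | cons c v =>
    cases v with
    | nil => simp [headFree]
    | cons d v => simp [headFree]

theorem same_sem (u : List Column) (a : Column) (v : List Column) (r : Fin 2)
    (hr : blk a r = false) :
    (∃ (l : List Dir) (C' : Set (ℤ × ℤ)),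
      GR l ⟨conf (u ++ a :: v), ((r : ℤ), (u.length : ℤ))⟩
        ⟨C', (((r.rev : Fin 2) : ℤ), (u.length : ℤ))⟩) ↔
      condS (summ u.reverse) a (summ v) r := by
  have hok := conf_ok (u := u) (v := v) hr
  have hD := conf_desc u a v
  have hmid := conf_mid u a v
  have hl1 := conf_left1 u a v
  have hl2 := conf_left2 u a v
  have hr2 := conf_right2 u a v
  generalize conf (u ++ a :: v) = C at *
  generalize (u ++ a :: v).length = n at *
  generalize (u.length : ℤ) = x at *
  have hrev : ((r.rev : Fin 2) : ℤ) = 1 - (r : ℤ) := rev_cast r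
  constructor
  · rintro ⟨l, C', hl⟩
    by_cases hb : blk a r.rev = true
    · right
      obtain ⟨h1, h2, h3⟩ := same_col hok hl rfl ((hmid r.rev).2 hb)
      refine ⟨(hl1 _).1 h1, (hD.headFree _).1 h2, ?_⟩
      rcases h3 with ⟨t, h3⟩ | ⟨t, h3⟩
      · left
        obtain ⟨B1, p1⟩ := t
        rcases (left_step' h3).2.1 with h | h
        · exact Or.inl ((hl1 _).1 h)
        · exact Or.inr ((hl2 _).1 h)
      · right
        rcases right_step' h3 with h | h
        · exact Or.inl ((hD.headFree _).1 h)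
        · exact Or.inr ((hr2 _).1 h)
    · left; simpa using hb
  · rintro (hb | ⟨h1, h2, h3⟩)
    · have hf : (1 - (r : ℤ), x) ∉ C := by
        rw [← hrev, hmid, hb]; simp
      obtain ⟨d, _, hG⟩ := vert (fin_row r) hf
      rw [← hrev] at hG
      exact ⟨_, _, GR.single hG⟩
    · by_cases hb : blk a r.rev = true
      · have hin := (hmid r.rev).2 hb
        have e1 := (hl1 r.rev).2 h1
        have e2 := (hD.headFree r.rev).2 h2
        rcases h3 with h3 | h3
        · have hL : ((r : ℤ), x - 1) ∉ C ∨ ((r : ℤ), x - 2) ∉ C := by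
            rcases h3 with h | h
            · exact Or.inl ((hl1 r).2 h)
            · exact Or.inr ((hl2 r).2 h)
          obtain ⟨C1, g1⟩ := left_step hL
          obtain ⟨Q', ⟨l', k1, _, _⟩, _⟩ := lvr hok hrev ⟨_, g1⟩ hin e1 e2
          exact ⟨l', Q', k1⟩
        · have hR : ((r : ℤ), x + 1) ∉ C ∨ ((r : ℤ), x + 2) ∉ C := by
            rcases h3 with h | h
            · exact Or.inl ((hD.headFree r).2 h)
            · exact Or.inr ((hr2 r).2 h)
          obtain ⟨C1, g1⟩ := right_step hR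
          obtain ⟨Q', l', k1⟩ := rvl hok hrev ⟨_, g1⟩ hin e1 e2
          exact ⟨l', Q', k1⟩
      · have hf : (1 - (r : ℤ), x) ∉ C := by
          rw [← hrev, hmid]; exact hb
        obtain ⟨d, _, hG⟩ := vert (fin_row r) hf
        rw [← hrev] at hG
        exact ⟨_, _, GR.single hG⟩

end MP82a8ee
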