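import Pool.Agent.Lib.MP_82a8ee_lc.RightCase

set_option autoImplicit false

namespace MP82a8ee

theorem conf_ok {u : List Column} {a : Column} {v : List Column} {r : Fin 2}
    (hr : blk a r = false) :
    Ok (u ++ a :: v).length ⟨conf (u ++ a :: v), ((r : ℤ), (u.length : ℤ))⟩ := by
  refine ⟨?_, fun c hc => Or.inr hc⟩
  show ((r : ℤ), (u.length : ℤ)) ∉ conf (u ++ a :: v)
  rw [conf_mid, hr]
  simp

theorem Reach1.route {C : Set (ℤ × ℤ)} {p t : ℤ × ℤ} (h : Reach1 C p t) :
    ∃ (l : List Dir) (C' : Set (ℤ × ℤ)), GR l ⟨C, p⟩ ⟨C', t⟩ := by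
  obtain ⟨l, C', h1, _⟩ := h
  exact ⟨_, C', h1⟩

theorem TC_col {x : ℤ} {z : List Column} {t : ℤ × ℤ} (h : t ∈ TC x z) : x < t.2 := by
  obtain ⟨i, k, a, _, h2, _⟩ := h
  rw [h2]
  show x < x + 1 + (k : ℤ)
  omega

theorem Desc.congr {C C1 : Set (ℤ × ℤ)} {x : ℤ} {z : List Column} {f : Fin 2 → Bool}
    (h : Desc C x z f) (hc : ∀ c : ℤ × ℤ, x + 1 ≤ c.2 → (c ∈ C1 ↔ c ∈ C)) : Desc C1 x z f := by
  intro i k
  rw [hc _ (by show x + 1 ≤ x + 1 + (k : ℤ); omega)]
  exact h i k

theorem right_sem (u : List Column) (a : Column) (v : List Column) (r : Fin 2)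
    (hr : blk a r = false) :
    (∃ t ∈ TC (u.length : ℤ) v, ∃ (l : List Dir) (C' : Set (ℤ × ℤ)),
      GR l ⟨conf (u ++ a :: v), ((r : ℤ), (u.length : ℤ))⟩ ⟨C', t⟩) ↔
      condR (summ u.reverse) a (summ v) r := by
  have hok := conf_ok (u := u) (v := v) hr
  have hD := conf_desc u a v
  have hmid := conf_mid u a v
  have hl1 := conf_left1 u a v
  have hl2 := conf_left2 u a v
  generalize conf (u ++ a :: v) = C at *
  generalize (u ++ a :: v).length = n at *
  generalize (u.length : ℤ) = x at *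
  have hrev : (1 : ℤ) - (r : ℤ) = ((r.rev : Fin 2) : ℤ) := (rev_cast r).symm
  have hrr : (1 : ℤ) - ((r.rev : Fin 2) : ℤ) = (r : ℤ) := by rw [rev_cast]; ring
  constructor
  · rintro ⟨t, ht, l, C', hl⟩
    have htx := TC_col ht
    obtain ⟨Q, l', hl', ⟨pre, mono, rfl, hpre, hmono⟩, _⟩ := right_reach hok hl htx
    change GR (pre ++ mono) _ (⟨Q, t⟩ : Position) at hl'
    rcases hpre with rfl | ⟨d, hd, rfl⟩
    · rw [List.nil_append] at hl'
      have hA := arr_of_mono hok hl' hmono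
      rcases hA with h | ⟨_, h⟩ | h | ⟨h1, h⟩
      · rw [h] at htx; exact absurd htx (lt_irrefl _)
      · rw [h] at htx; exact absurd htx (lt_irrefl _)
      · exact Or.inl ((acc_iff v C x r _ hok hD).2 ⟨t, ht, h⟩)
      · refine Or.inr (Or.inl ⟨?_, (acc_iff v C x r.rev _ ⟨h1, hok.2⟩ hD).2 ⟨t, ht, h⟩⟩)
        by_contra hb
        exact h1 ((hmid r.rev).2 (by simpa using hb))
    · -- the prefix of three moves
      simp only [List.cons_append, List.nil_append] at hl'
      cases hl' with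
      | @cons _ _ _ s1 _ g1 hl' =>
      cases hl' with
      | @cons _ _ _ s2 _ g2 hl' =>
      cases hl' with
      | @cons _ _ _ s3 _ g3 hl' =>
      obtain ⟨C1, p1⟩ := s1
      obtain ⟨C2, p2⟩ := s2
      obtain ⟨C3, p3⟩ := s3
      have ok1 := g1.ok hok
      have ok2 := g2.ok ok1
      have ok3 := g3.ok ok2
      obtain ⟨rfl, hL, hag⟩ := left_step' g1
      obtain ⟨k1, k2⟩ := g2.vertical ok1 hd
      simp only at k1 k2
      have k3 : C2 = C1 := by
        rcases ((G_iff _ _ _).1 g2).2 with h | h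
        · exact h.2
        · exact absurd h.1 k2
      subst k3
      rw [hrev] at k1
      subst k1
      have g3' := (G_iff _ _ _).1 g3
      obtain ⟨k4, k5⟩ := g3'
      simp only at k4 k5
      rw [vec_right, show x - 1 + 1 = x by ring] at k4
      subst k4
      rw [vec_right] at k5
      have hagr : ∀ y, (((r.rev : Fin 2) : ℤ), y) ∈ C2 ↔ (((r.rev : Fin 2) : ℤ), y) ∈ C := by
        intro y
        refine hag _ (Or.inl ?_)
        intro h
        exact rev_ne r (fin_cast_inj h)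
      have hD2 : Desc C2 x v (fun _ => false) :=
        hD.congr (fun c hc => hag c (Or.inr (by linarith)))
      have hA := arr_of_mono ok3 hl' hmono
      rcases k5 with ⟨k5, rfl⟩ | ⟨k5, k6, rfl⟩
      · -- walk
        rw [hagr] at k5
        have hb : blk a r.rev = false := by
          by_contra hb
          exact k5 ((hmid r.rev).2 (by simpa using hb))
        rcases hA with h | ⟨_, h⟩ | h | ⟨h1, h⟩
        · rw [h] at htx; exact absurd htx (lt_irrefl _)
        · rw [h] at htx; exact absurd htx (lt_irrefl _)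
        · exact Or.inr (Or.inl ⟨hb, (acc_iff v _ x r.rev _ ok3 hD2).2 ⟨t, ht, h⟩⟩)
        · rw [Fin.rev_rev] at h1 h
          exact Or.inl ((acc_iff v _ x r _ ⟨h1, ok3.2⟩ hD2).2 ⟨t, ht, h⟩)
      · -- push
        rw [hagr] at k5 k6
        have hb : blk a r.rev = true := (hmid r.rev).1 k5
        have h2 : (((r.rev : Fin 2) : ℤ), x - 1) ∉ C := by
          rw [← hagr]; exact k2
        have k6' : (((r.rev : Fin 2) : ℤ), x + 1) ∉ C2 := by rw [hagr]; exact k6
        have hD3 := hD2.push (r := r.rev) (y := x) le_rfl k6'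
        refine Or.inr (Or.inr ⟨hb, ?_, (hl1 r.rev).1 h2, (hD.headFree r.rev).1 k6, ?_⟩)
        · rcases hL with h | h
          · exact Or.inl ((hl1 r).1 h)
          · exact Or.inr ((hl2 r).1 h)
        · rcases hA with h | ⟨_, h⟩ | h | ⟨h1, h⟩
          · rw [h] at htx; exact absurd htx (lt_irrefl _)
          · rw [h] at htx; exact absurd htx (lt_irrefl _)
          · exact Or.inl ((acc_iff v _ x r.rev _ ok3 hD3).2 ⟨t, ht, h⟩)
          · rw [Fin.rev_rev] at h1 h
            exact Or.inr ((acc_iff v _ x r _ ⟨h1, ok3.2⟩ hD3).2 ⟨t, ht, h⟩)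
  · rintro (h | ⟨hb, h⟩ | ⟨hb, hL, h2, h3, h⟩)
    · obtain ⟨t, ht, hR⟩ := (acc_iff v C x r _ hok hD).1 h
      obtain ⟨l, C', hl⟩ := hR.route
      exact ⟨t, ht, l, C', hl⟩
    · have hf : (((r.rev : Fin 2) : ℤ), x) ∉ C := by
        rw [hmid, hb]; simp
      obtain ⟨t, ht, hR⟩ := (acc_iff v C x r.rev _ ⟨hf, hok.2⟩ hD).1 h
      obtain ⟨l, C', hl⟩ := hR.route
      rw [← hrev] at hf hl
      obtain ⟨d, _, hG⟩ := vert (fin_row r) hf
      exact ⟨t, ht, _, C', GR.cons hG hl⟩
    · have hL' : ((r : ℤ), x - 1) ∉ C ∨ ((r : ℤ), x - 2) ∉ C := by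
        rcases hL with h | h
        · exact Or.inl ((hl1 r).2 h)
        · exact Or.inr ((hl2 r).2 h)
      obtain ⟨C1, g1⟩ := left_step hL'
      obtain ⟨_, _, hag⟩ := left_step' g1
      have ok1 := g1.ok hok
      have hagr : ∀ y, (((r.rev : Fin 2) : ℤ), y) ∈ C1 ↔ (((r.rev : Fin 2) : ℤ), y) ∈ C := by
        intro y
        refine hag _ (Or.inl ?_)
        intro h
        exact rev_ne r (fin_cast_inj h)
      have hf : (((r.rev : Fin 2) : ℤ), x - 1) ∉ C1 := by
        rw [hagr]; exact (hl1 r.rev).2 h2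
      have hf' := hf
      rw [← hrev] at hf'
      obtain ⟨d, _, g2⟩ := vert (fin_row r) hf'
      rw [hrev] at g2
      have ok2 := g2.ok ok1
      have hin : (((r.rev : Fin 2) : ℤ), x) ∈ C1 := by
        rw [hagr]; exact (hmid r.rev).2 hb
      have hnot : (((r.rev : Fin 2) : ℤ), x + 1) ∉ C1 := by
        rw [hagr]; exact (hD.headFree r.rev).2 h3
      have g3 : G Dir.right ⟨C1, (((r.rev : Fin 2) : ℤ), x - 1)⟩
          ⟨insert (((r.rev : Fin 2) : ℤ), x + 1) (C1 \ {(((r.rev : Fin 2) : ℤ), x)}),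
            (((r.rev : Fin 2) : ℤ), x)⟩ := by
        rw [G_iff]
        refine ⟨?_, Or.inr ⟨hin, ?_, ?_⟩⟩
        · show (((r.rev : Fin 2) : ℤ), x) = _
          rw [vec_right]; simp
        · show ((((r.rev : Fin 2) : ℤ), x) : ℤ × ℤ) + Dir.right.vec ∉ C1
          rw [vec_right]; exact hnot
        · show _ = insert (((((r.rev : Fin 2) : ℤ), x) : ℤ × ℤ) + Dir.right.vec)
            (C1 \ {(((r.rev : Fin 2) : ℤ), x)})
          rw [vec_right]
      have ok3 := g3.ok ok2
      have hD2 : Desc C1 x v (fun _ => false) :=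
        hD.congr (fun c hc => hag c (Or.inr (by linarith)))
      have hD3 := hD2.push (r := r.rev) (y := x) le_rfl hnot
      rcases h with h | h
      · obtain ⟨t, ht, hR⟩ := (acc_iff v _ x r.rev _ ok3 hD3).1 h
        obtain ⟨l, C', hl⟩ := hR.route
        exact ⟨t, ht, _, C', GR.cons g1 (GR.cons g2 (GR.cons g3 hl))⟩
      · have hrf : ((r : ℤ), x) ∉ insert (((r.rev : Fin 2) : ℤ), x + 1)
            (C1 \ {(((r.rev : Fin 2) : ℤ), x)}) := by
          rw [Set.mem_insert_iff, Set.mem_sdiff]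
          rintro (h | ⟨h, _⟩)
          · rw [Prod.ext_iff] at h; simp only at h; omega
          · rw [hag _ (Or.inr le_rfl)] at h
            exact hok.1 h
        obtain ⟨t, ht, hR⟩ := (acc_iff v _ x r _ ⟨hrf, ok3.2⟩ hD3).1 h
        obtain ⟨l, C', hl⟩ := hR.route
        rw [← hrr] at hrf hl
        obtain ⟨d', _, g4⟩ := vert (fin_row r.rev) hrf
        exact ⟨t, ht, _, C', GR.cons g1 (GR.cons g2 (GR.cons g3 (GR.cons g4 hl)))⟩

end MP82a8ee
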