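import Mathlib

set_option autoImplicit false

namespace MP82a8ee

/-- the automaton of `regular_split` -/
def splitNFA {α S T : Type} (δ : S → α → S) (γ : α → T → T) (s0 : S) (t0 : T)
    (P : S → α → T → Prop) : NFA α (S ⊕ T) where
  step := fun x a => match x with
    | Sum.inl s => {Sum.inl (δ s a)} ∪ {y | ∃ t, y = Sum.inr t ∧ P s a t}
    | Sum.inr t => {y | ∃ t', y = Sum.inr t' ∧ γ a t' = t}
  start := {Sum.inl s0}
  accept := {Sum.inr t0}

theorem mem_acceptsFrom_single {α σ : Type} (M : NFA α σ) (S : Set σ) (x : List α) :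
    x ∈ M.acceptsFrom S ↔ ∃ s ∈ S, x ∈ M.acceptsFrom {s} := by
  simp only [NFA.mem_acceptsFrom]
  constructor
  · rintro ⟨s, hs, h⟩
    rw [NFA.mem_evalFrom_iff_exists] at h
    obtain ⟨t, ht, h⟩ := h
    exact ⟨t, ht, s, hs, h⟩
  · rintro ⟨t, ht, s, hs, h⟩
    refine ⟨s, hs, ?_⟩
    rw [NFA.mem_evalFrom_iff_exists]
    exact ⟨t, ht, h⟩

theorem split_right {α S T : Type} (δ : S → α → S) (g : List α → T) (γ : α → T → T)
    (hg : ∀ a v, g (a :: v) = γ a (g v)) (s0 : S) (P : S → α → T → Prop) :
    ∀ (v : List α) (t : T),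
      v ∈ (splitNFA δ γ s0 (g []) P).acceptsFrom {Sum.inr t} ↔ g v = t := by
  intro v
  induction v with
  | nil =>
    intro t
    rw [NFA.nil_mem_acceptsFrom]
    simp only [splitNFA, Set.mem_singleton_iff]
    constructor
    · rintro ⟨s, h1, h2⟩
      rw [h1] at h2
      exact (Sum.inr.inj h2).symm
    · intro h
      exact ⟨_, rfl, by rw [h]⟩
  | cons a v ih =>
    intro t
    rw [NFA.cons_mem_acceptsFrom, NFA.stepSet_singleton, mem_acceptsFrom_single]
    constructor
    · rintro ⟨s, hs, h⟩
      obtain ⟨t', rfl, ht⟩ := hs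
      rw [ih] at h
      rw [hg, h, ht]
    · intro h
      refine ⟨Sum.inr (g v), ⟨g v, rfl, ?_⟩, ?_⟩
      · rw [← hg, h]
      · rw [ih]

theorem split_left {α S T : Type} (δ : S → α → S) (g : List α → T) (γ : α → T → T)
    (hg : ∀ a v, g (a :: v) = γ a (g v)) (s0 : S) (P : S → α → T → Prop) :
    ∀ (w : List α) (s : S),
      w ∈ (splitNFA δ γ s0 (g []) P).acceptsFrom {Sum.inl s} ↔
        ∃ u a v, w = u ++ a :: v ∧ P (u.foldl δ s) a (g v) := by
  intro w
  induction w with
  | nil =>
    intro s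
    rw [NFA.nil_mem_acceptsFrom]
    simp only [splitNFA, Set.mem_singleton_iff]
    constructor
    · rintro ⟨s', h1, h2⟩
      rw [h1] at h2
      exact absurd h2 (by simp)
    · rintro ⟨u, a, v, h, _⟩
      simp at h
  | cons b w ih =>
    intro s
    rw [NFA.cons_mem_acceptsFrom, NFA.stepSet_singleton, mem_acceptsFrom_single]
    constructor
    · rintro ⟨x, hx, h⟩
      rcases hx with hx | ⟨t, rfl, ht⟩
      · rw [Set.mem_singleton_iff] at hx
        subst hx
        rw [ih] at h
        obtain ⟨u, a, v, rfl, hP⟩ := h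
        exact ⟨b :: u, a, v, rfl, hP⟩
      · rw [split_right δ g γ hg] at h
        subst h
        exact ⟨[], b, w, rfl, ht⟩
    · rintro ⟨u, a, v, h, hP⟩
      cases u with
      | nil =>
        simp only [List.nil_append, List.cons.injEq] at h
        obtain ⟨rfl, rfl⟩ := h
        refine ⟨Sum.inr (g w), Or.inr ⟨g w, rfl, hP⟩, ?_⟩
        rw [split_right δ g γ hg]
      | cons c u =>
        simp only [List.cons_append, List.cons.injEq] at h
        obtain ⟨rfl, rfl⟩ := h
        refine ⟨Sum.inl (δ s b), Or.inl rfl, ?_⟩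
        rw [ih]
        exact ⟨u, a, v, rfl, hP⟩

/-- a language defined by a split of the word, with finitely many types of the two sides, is
regular -/
theorem regular_split {α S T : Type} [Fintype S] [Fintype T] (δ : S → α → S) (s0 : S)
    (g : List α → T) (γ : α → T → T) (hg : ∀ a v, g (a :: v) = γ a (g v))
    (P : S → α → T → Prop) (L : Language α)
    (hL : ∀ w, w ∈ L ↔ ∃ u a v, w = u ++ a :: v ∧ P (u.foldl δ s0) a (g v)) :
    L.IsRegular := by
  classical
  refine ⟨Set (S ⊕ T), inferInstance, (splitNFA δ γ s0 (g []) P).toDFA, ?_⟩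
  rw [NFA.toDFA_correct]
  ext w
  rw [hL, ← split_left δ g γ hg s0 P w s0]
  rfl

/-- the same with a fold of the reversed left side -/
theorem regular_split' {α T : Type} [Fintype T] (g : List α → T) (γ : α → T → T)
    (hg : ∀ a v, g (a :: v) = γ a (g v)) (P : T → α → T → Prop) (L : Language α)
    (hL : ∀ w, w ∈ L ↔ ∃ u a v, w = u ++ a :: v ∧ P (g u.reverse) a (g v)) :
    L.IsRegular := by
  refine regular_split (fun t a => γ a t) (g []) g γ hg P L ?_
  have key : ∀ u : List α, u.foldl (fun t a => γ a t) (g []) = g u.reverse := by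
    intro u
    rw [← List.foldr_reverse]
    generalize u.reverse = r
    induction r with
    | nil => rfl
    | cons a r ih => rw [List.foldr_cons, ih, hg]
  intro w
  rw [hL]
  simp only [key]

end MP82a8ee
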