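import Pool.Agent.Lib.MP_82a8ee_lc.Inv

set_option autoImplicit false

namespace MP82a8ee

/-- the three moves left, vertical, right from the start -/
theorem lvr {n : ℕ} {s0 : Position} (h0 : Ok n s0) {σ : ℤ}
    (hσ : σ = 1 - s0.robot.1) (hL : ∃ t, G Dir.left s0 t)
    (hb : (σ, s0.robot.2) ∈ s0.blocks) (h1 : (σ, s0.robot.2 - 1) ∉ s0.blocks)
    (h2 : (σ, s0.robot.2 + 1) ∉ s0.blocks) :
    ∃ Q', Good s0 (σ, s0.robot.2) Q' ∧
      ∀ c ∈ Q', s0.robot.2 + 1 ≤ c.2 → c ∈ s0.blocks ∨ c = (σ, s0.robot.2 + 1) := by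
  obtain ⟨t, hL⟩ := hL
  have hr := h0.row
  have hf := h0.free h1
  simp only at hf
  obtain ⟨B, r, c⟩ := s0
  obtain ⟨B1, p1⟩ := t
  simp only at hσ hb h1 h2 hr hf ⊢
  have hL' := hL
  rw [G_iff] at hL'
  obtain ⟨e1, e2⟩ := hL'
  simp only at e1 e2
  rw [vec_left] at e1
  subst e1
  rw [vec_left] at e2
  -- the row σ is untouched by the first move
  have hrow : ∀ y, (σ, y) ∈ B1 ↔ (σ, y) ∈ B := by
    intro y
    rcases e2 with ⟨_, h⟩ | ⟨_, _, h⟩
    · rw [h]
    · rw [h]
      constructor
      · rintro (h | h)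
        · rw [Prod.ext_iff] at h; simp only at h; omega
        · exact h.1
      · intro h
        refine Or.inr ⟨h, ?_⟩
        intro h
        rw [Set.mem_singleton_iff, Prod.ext_iff] at h; simp only at h; omega
  have hfar : ∀ x ∈ B1, c + 1 ≤ x.2 → x ∈ B := by
    intro x hx hxc
    rcases e2 with ⟨_, h⟩ | ⟨_, _, h⟩
    · rw [h] at hx; exact hx
    · rw [h] at hx
      rcases hx with h | h
      · rw [Prod.ext_iff] at h; simp only at h; omega
      · exact h.1
  have e3 : (1 - r, c - 1) ∉ B1 := by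
    rw [← hσ]
    intro h
    exact h1 ((hrow _).1 h)
  obtain ⟨v, hv, hV⟩ := vert (Q := B1) (r := r) (x := c - 1) hr e3
  rw [← hσ] at hV
  have hR : G Dir.right ⟨B1, (σ, c - 1)⟩ ⟨insert (σ, c + 1) (B1 \ {(σ, c)}), (σ, c)⟩ := by
    rw [G_iff]
    refine ⟨?_, Or.inr ⟨(hrow c).2 hb, ?_, ?_⟩⟩
    · show (σ, c) = ((σ, c - 1) : ℤ × ℤ) + Dir.right.vec
      rw [vec_right]; simp
    · show ((σ, c) : ℤ × ℤ) + Dir.right.vec ∉ B1
      rw [vec_right]
      intro h
      exact h2 ((hrow _).1 h)
    · show insert (σ, c + 1) (B1 \ {(σ, c)}) =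
          insert (((σ, c) : ℤ × ℤ) + Dir.right.vec) (B1 \ {(σ, c)})
      rw [vec_right]
  refine ⟨insert (σ, c + 1) (B1 \ {(σ, c)}), ?_, ?_⟩
  · refine ⟨[Dir.left, v, Dir.right], ?_, ?_, ?_⟩
    · exact GR.cons hL (GR.cons hV (GR.cons hR (GR.nil _)))
    · exact ⟨[Dir.left, v, Dir.right], [], by simp, Or.inr ⟨v, hv, rfl⟩, by simp⟩
    · simp only [List.length_cons, List.length_nil]
      push_cast
      omega
  · intro x hx hxc
    rcases hx with h | h
    · exact Or.inr h
    · exact Or.inl (hfar x h.1 hxc)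

theorem inv_stay {n : ℕ} {s0 s t : Position} {d : Dir} {X : ℤ} (h0 : Ok n s0)
    (hI : Inv n s0 s X) (hG : G d s t) (hX : t.robot.2 ≤ X) : Inv n s0 t X := by
  obtain ⟨hc, hsX, hs, hfin, hpart⟩ := hI
  have ht := hG.ok hs
  have hdom := hG.dom hX
  refine ⟨hc, hX, ht, ?_, ?_⟩
  · intro x hx1 hx2 σ hσ
    rcases hfin x hx1 hx2 σ hσ with h | h
    · exact Or.inl h
    · exact Or.inr (h.step hs hG)
  rcases hpart with ⟨hXc, hD, ⟨l, hl⟩, hfr⟩ | ⟨hXc, u, l, hl, hu, hDu, hprev, hfr⟩
  · left
    subst hXc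
    refine ⟨rfl, hD.trans hdom, ⟨l ++ [d], hl.snoc hG⟩, ?_⟩
    intro σ hσ
    rcases hfr σ hσ with h | ⟨ha, hb, hLV⟩
    · exact Or.inl (h.trans hdom)
    -- the other row, blocked at the start
    have hr0 := h0.row
    have hσ0 : σ = 1 - s0.robot.1 := by
      have hne : σ ≠ s0.robot.1 := by
        rintro rfl
        exact h0.1 hb
      omega
    by_cases hc' : (σ, s0.robot.2) ∈ t.blocks
    · right
      refine ⟨hc', hb, ?_⟩
      rcases hLV with h | h
      · exact Or.inl h
      · subst h
        cases d with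
        | left => exact Or.inl ⟨t, hG⟩
        | right =>
          exfalso
          rw [G_iff] at hG
          have e2 : t.robot.2 = s.robot.2 + Dir.right.vec.2 := by rw [hG.1]; rfl
          simp only [Dir.vec] at e2
          omega
        | up =>
          exfalso
          have := hG.vertical h0 (Or.inl rfl)
          rw [this.1, ← hσ0] at this
          exact this.2 hb
        | down =>
          exfalso
          have := hG.vertical h0 (Or.inr rfl)
          rw [this.1, ← hσ0] at this
          exact this.2 hb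
    · left
      obtain ⟨g1, g2, g3, g4⟩ := removed hG hs hsX ha hc'
      have hL : ∃ t, G Dir.left s0 t := by
        rcases hLV with h | h
        · exact h
        · exfalso
          have : s0.robot = (σ, s0.robot.2 - 1) := by rw [← h]; rw [h]; rw [h] at g1; exact g1
          have := congrArg Prod.snd this
          simp only at this
          omega
      have e1 : (σ, s0.robot.2 - 1) ∉ s0.blocks := by
        intro h
        have := hl.pair h0 (r := σ) (y := s0.robot.2 - 1) h (by simpa using hb)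
        exact hs.1 (g1 ▸ this.1)
      have e2 : (σ, s0.robot.2 + 1) ∉ s0.blocks := by
        intro h
        have := hl.pair h0 (r := σ) (y := s0.robot.2) hb h
        exact g2 this.2
      obtain ⟨Q', hQ, hQ'⟩ := lvr h0 hσ0 hL hb e1 e2
      refine Or.inr ⟨⟨Q', hQ, ?_⟩, ⟨s0.blocks, ?_, hD.trans hdom⟩⟩
      swap
      · refine ⟨[], ?_, ⟨[], [], by simp, Or.inl rfl, by simp⟩, ?_⟩
        · have : (1 - σ, s0.robot.2) = s0.robot := by ext <;> simp [hσ0]
          rw [this]; exact GR.nil _
        · have hm := h0.free h0.1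
          simp only [List.length_nil]
          push_cast
          omega
      intro c hc hcx
      rw [g3]
      rcases hQ' c hc hcx with h | h
      · refine Or.inr ⟨hD c h hcx, ?_⟩
        intro hcc
        rw [Set.mem_singleton_iff] at hcc
        rw [hcc] at hcx
        simp only at hcx
        omega
      · exact Or.inl h
  · right
    refine ⟨hXc, u, l ++ [d], hl.snoc hG, hu, hDu.trans hdom, hprev, ?_⟩
    intro σ hσ
    rcases hfr σ hσ with h | ⟨ha, hb⟩
    · exact Or.inl (h.trans hdom)
    by_cases hc' : (σ, X) ∈ t.blocks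
    · exact Or.inr ⟨hc', hb⟩
    · left
      obtain ⟨g1, g2, g3, g4⟩ := removed hG hs hsX ha hc'
      rcases push_snap hl hu (hprev σ hσ) hb with h | ⟨_, _, Q', hQ, hQ'⟩
      · exfalso
        rcases h.2 with h | h
        · exact hs.1 (g1 ▸ h)
        · exact g2 h
      · refine Or.inl ⟨Q', hQ, ?_⟩
        intro c hc hcx
        rw [g3]
        rcases hQ' c hc (by linarith) with h | h
        · refine Or.inr ⟨hDu c h hcx, ?_⟩
          intro hcc
          rw [Set.mem_singleton_iff] at hcc
          rw [hcc] at hcx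
          simp only at hcx
          omega
        · exact Or.inl h

end MP82a8ee
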