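import Pool.Agent.Lib.MP_82a8ee_lc.AccIff
import Pool.Agent.Lib.MP_82a8ee_lc.Split

set_option autoImplicit false

namespace MP82a8ee

/-- The cells (row, column) of the board encoded by the word `w` whose bit chosen by `f` is set. -/
def cellsWith (f : Bool × Bool × Bool → Bool) (w : List Column) : Set (ℤ × ℤ) :=
  {c | ∃ (i : Fin 2) (j : ℕ) (a : Column), w[j]? = some a ∧ c = ((i : ℤ), (j : ℤ)) ∧
    f (a i) = true}

/-- The solvable instances of PUSH-1 on boards with two rows, written column by column: the words
in which exactly one cell holds the robot, exactly one cell is the target, the cell of the robot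
holds no block, and the target can be reached. -/
def twoRow : Language Column :=
  {w | ∃ p q : ℤ × ℤ, cellsWith (fun s => s.2.1) w = {p} ∧ cellsWith (fun s => s.2.2) w = {q} ∧
    p ∉ cellsWith (fun s => s.1) w ∧ Solvable 2 w.length (cellsWith (fun s => s.1) w) p q}

theorem cellsWith_subset (f : Bool × Bool × Bool → Bool) (w : List Column) :
    cellsWith f w ⊆ board 2 w.length := by
  rintro c ⟨i, j, a, h1, rfl, _⟩
  have hj : j < w.length := by
    rw [List.getElem?_eq_some_iff] at h1
    exact h1.1
  show 0 ≤ (i : ℤ) ∧ (i : ℤ) < ((2 : ℕ) : ℤ) ∧ 0 ≤ (j : ℤ) ∧ (j : ℤ) < (w.length : ℤ)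
  have := fin_row i
  push_cast
  omega

/-- no bit chosen by `f` is set in the word -/
def noneB (f : Bool × Bool × Bool → Bool) : List Column → Bool
  | [] => true
  | c :: z => !(f (c 0)) && !(f (c 1)) && noneB f z

theorem noneB_iff (f : Bool × Bool × Bool → Bool) (w : List Column) :
    noneB f w = true ↔ ∀ a ∈ w, ∀ i : Fin 2, f (a i) = false := by
  induction w with
  | nil => simp [noneB]
  | cons c z ih =>
    simp only [noneB, Bool.and_eq_true, Bool.not_eq_true', ih, List.mem_cons, forall_eq_or_imp,
      Fin.forall_fin_two]

/-- the words with exactly one cell chosen by `f` form a regular language -/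
theorem unique_regular (f : Bool × Bool × Bool → Bool) :
    Language.IsRegular {w : List Column | ∃ p, cellsWith f w = {p}} := by
  refine regular_split' (noneB f) (fun c b => !(f (c 0)) && !(f (c 1)) && b) (fun _ _ => rfl)
    (fun t a t' => t = true ∧ (∃ i : Fin 2, f (a i) = true ∧ f (a i.rev) = false) ∧ t' = true) _ ?_
  intro w
  constructor
  · rintro ⟨p, hp⟩
    have hmem : p ∈ cellsWith f w := by rw [hp]; rfl
    obtain ⟨i, j, a, h1, h2, h3⟩ := hmem
    have hj : j < w.length := by
      rw [List.getElem?_eq_some_iff] at h1
      exact h1.1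
    have ha : w[j] = a := by
      rw [List.getElem?_eq_getElem hj] at h1
      exact Option.some.inj h1
    have huniq : ∀ (i' : Fin 2) (j' : ℕ) (a' : Column), w[j']? = some a' → f (a' i') = true →
        i' = i ∧ j' = j := by
      intro i' j' a' h1' h3'
      have : ((i' : ℤ), (j' : ℤ)) ∈ cellsWith f w := ⟨i', j', a', h1', rfl, h3'⟩
      rw [hp, Set.mem_singleton_iff, h2, Prod.ext_iff] at this
      simp only at this
      exact ⟨fin_cast_inj this.1, by omega⟩
    refine ⟨w.take j, a, w.drop (j + 1), ?_, ?_, ?_, ?_⟩
    · rw [← ha, List.getElem_cons_drop, List.take_append_drop]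
    · rw [noneB_iff]
      intro b hb i'
      rw [List.mem_reverse, List.mem_iff_getElem?] at hb
      obtain ⟨k, hk⟩ := hb
      by_contra hne
      have hkj : k < j := by
        by_contra hh
        rw [List.getElem?_eq_none (by rw [List.length_take]; omega)] at hk
        exact absurd hk (by simp)
      rw [List.getElem?_take_of_lt hkj] at hk
      have := huniq i' k b hk (by simpa using hne)
      omega
    · refine ⟨i, h3, ?_⟩
      by_contra hne
      have := huniq i.rev j a h1 (by simpa using hne)
      exact rev_ne i this.1
    · rw [noneB_iff]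
      intro b hb i'
      rw [List.mem_iff_getElem?] at hb
      obtain ⟨k, hk⟩ := hb
      by_contra hne
      rw [List.getElem?_drop] at hk
      have := huniq i' _ b hk (by simpa using hne)
      omega
  · rintro ⟨u, a, v, rfl, h1, ⟨i, h2, h3⟩, h4⟩
    rw [noneB_iff] at h1 h4
    refine ⟨((i : ℤ), (u.length : ℤ)), ?_⟩
    ext c
    rw [Set.mem_singleton_iff]
    constructor
    · rintro ⟨i', j', a', e1, rfl, e3⟩
      rcases lt_trichotomy j' u.length with hlt | heq | hgt
      · rw [List.getElem?_append_left hlt] at e1
        have := h1 a' (by rw [List.mem_reverse]; exact List.mem_of_getElem? e1) i'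
        rw [this] at e3
        exact absurd e3 (by simp)
      · subst heq
        rw [List.getElem?_append_right le_rfl, Nat.sub_self, List.getElem?_cons_zero] at e1
        have := Option.some.inj e1
        subst this
        rcases eq_or_rev i' i with rfl | rfl
        · rfl
        · rw [h3] at e3; exact absurd e3 (by simp)
      · rw [List.getElem?_append_right hgt.le,
          show j' - u.length = (j' - u.length - 1) + 1 by omega, List.getElem?_cons_succ] at e1
        have := h4 a' (List.mem_of_getElem? e1) i'
        rw [this] at e3
        exact absurd e3 (by simp)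
    · rintro rfl
      refine ⟨i, u.length, a, ?_, rfl, h2⟩
      rw [List.getElem?_append_right le_rfl, Nat.sub_self, List.getElem?_cons_zero]

end MP82a8ee
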